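import Pool.Agent.T2h48.AB.Stm

/-!
# CONF: configurations near the generic edge (helper1)
-/

set_option autoImplicit false

namespace Pool.Agent.T2h48.AB

namespace Conf

open Algebra AlgebraicIndependent Cardinal

variable {K : Type} [Field K] [CharZero K]

/-- algebraic over the subalgebra generated by `s` -/
def Al (s : Set K) (x : K) : Prop := IsAlgebraic (Algebra.adjoin ℚ s) x

theorem Al.trans {s t : Set K} {a : K} (h : ∀ x ∈ s, Al t x) (ha : Al s a) : Al t a :=
  IsAlgebraic.adjoin_of_forall_isAlgebraic (fun x hx => h x hx.1) ha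

theorem Al.self {s : Set K} {x : K} (h : x ∈ s) : Al s x :=
  isAlgebraic_algebraMap (⟨x, Algebra.subset_adjoin h⟩ : Algebra.adjoin ℚ s)

theorem Al.mono {s t : Set K} (h : s ⊆ t) {x : K} (hx : Al s x) : Al t x :=
  Al.trans (fun _ hy => Al.self (h hy)) hx

theorem exists_basis (s : Set K) : ∃ B : Set K, AlgebraicIndependent ℚ (Subtype.val : B → K) ∧
    B ⊆ s ∧ ∀ x ∈ s, Al B x := by
  obtain ⟨B, hB⟩ := (AlgebraicIndependent.matroid ℚ K).exists_isBasis s
  rw [AlgebraicIndependent.matroid_isBasis_iff] at hB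
  exact ⟨B, hB.1, hB.2.1, hB.2.2⟩

theorem card_le {s B : Set K} (hB : AlgebraicIndependent ℚ (Subtype.val : B → K)) (hBs : B ⊆ s) :
    #B ≤ Algebra.trdeg ℚ (IntermediateField.adjoin ℚ s) := by
  let y : B → IntermediateField.adjoin ℚ s := fun b =>
    ⟨b, IntermediateField.subset_adjoin ℚ s (hBs b.2)⟩
  have h1 : AlgebraicIndependent ℚ y := by
    apply AlgebraicIndependent.of_comp (IntermediateField.adjoin ℚ s).val
    exact hB
  exact h1.cardinalMk_le_trdeg

theorem lifts (hL : S_LIFT) (S : Set K) (hS : IsTranscendenceBasis ℚ (Subtype.val : S → K)) (b : K)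
    (n : ℕ) : ∃ φ : K →+* PowerSeries K, IsLift φ ∧
      (b ∈ S → φ b = PowerSeries.C b + PowerSeries.C (n : K) * PowerSeries.X) ∧
      ∀ y ∈ S, y ≠ b → φ y = PowerSeries.C y := by
  classical
  obtain ⟨φ, h1, h2⟩ := hL K S Subtype.val hS (fun y => if (y : K) = b then
    PowerSeries.C b + PowerSeries.C (n : K) * PowerSeries.X else PowerSeries.C (y : K)) (by
      intro y
      split_ifs with h
      · rw [h]; simp
      · simp)
  refine ⟨φ, h1, fun hb => ?_, fun y hy hyb => ?_⟩
  · have := h2 ⟨b, hb⟩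
    simpa using this
  · have := h2 ⟨y, hy⟩
    simpa [hyb] using this

theorem val_inj {b : K} {m n : ℕ} (h : (PowerSeries.C b + PowerSeries.C (m : K) * PowerSeries.X :
    PowerSeries K) = PowerSeries.C b + PowerSeries.C (n : K) * PowerSeries.X) : m = n := by
  have h1 := add_left_cancel h
  have h2 := congrArg (PowerSeries.coeff 1) h1
  rw [PowerSeries.coeff_C_mul, PowerSeries.coeff_C_mul, PowerSeries.coeff_one_X] at h2
  simpa using h2

theorem uniq (hU : S_LIFTU) (S : Set K) {x : K} (hx : Al S x) {φ ψ : K →+* PowerSeries K}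
    (hφ : IsLift φ) (hψ : IsLift ψ) (h : ∀ y ∈ S, φ y = ψ y) : φ x = ψ x := by
  refine hU K S Subtype.val x ?_ φ ψ hφ hψ fun y => h y y.2
  rw [Subtype.range_val, IntermediateField.isAlgebraic_adjoin_iff]
  exact hx

theorem sum_le (f : Fin 3 → ℕ) (m : ℕ) (i j : Fin 3) (hij : i ≠ j) (hi : f i ≤ 1) (hj : f j ≤ 1)
    (h : ∀ k, f k ≤ m) : ∑ k, f k ≤ m + 3 := by
  rw [Fin.sum_univ_three]
  have h0 := h 0
  have h1 := h 1
  have h2 := h 2
  fin_cases i <;> fin_cases j <;> simp at hij hi hj <;> omega

theorem third (i : Fin 3) : ∃ j : Fin 3, i ≠ j := by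
  fin_cases i
  · exact ⟨1, by decide⟩
  · exact ⟨0, by decide⟩
  · exact ⟨0, by decide⟩

end Conf

open Conf Cardinal in
theorem t_CONF (hL : S_LIFT) (hU : S_LIFTU) (hN : S_NET) : S_CONF := by
  classical
  intro K _ _ a D w halg hD hD1 hw m hm
  by_cases hA : ∀ i j : Fin 3, i ≠ j → ∀ x : K, Al (Set.range (w i) ∪ Set.range (w j)) x
  · -- case A
    choose B hBi hBs hBa using fun i => exists_basis (Set.range (w i))
    have hfin : ∀ i, (B i).Finite := fun i => (Set.finite_range (w i)).subset (hBs i)
    have hcard : ∀ i, 2 * (B i).ncard ≤ D := by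
      intro i
      have h1 := card_le (hBi i) (hBs i)
      have h2 := (mul_le_mul_right h1 (2 : Cardinal)).trans (hw i)
      rw [← Set.cast_ncard (hfin i)] at h2
      exact_mod_cast h2
    have hall : ∀ i j, i ≠ j → ∀ x : K, Al (B i ∪ B j) x := by
      intro i j hij x
      refine Al.trans ?_ (hA i j hij x)
      rintro y (hy | hy)
      · exact (hBa i y hy).mono Set.subset_union_left
      · exact (hBa j y hy).mono Set.subset_union_right
    have hle : ∀ i j, i ≠ j → D ≤ (B i ∪ B j).ncard := by
      intro i j hij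
      haveI : Algebra.IsAlgebraic (Algebra.adjoin ℚ (B i ∪ B j)) K := ⟨hall i j hij⟩
      have h1 := Algebra.IsAlgebraic.trdeg_le_cardinalMk ℚ (B i ∪ B j)
      rw [hD, ← Set.cast_ncard ((hfin i).union (hfin j))] at h1
      exact_mod_cast h1
    have hun : ∀ i j, (B i ∪ B j).ncard ≤ (B i).ncard + (B j).ncard := fun i j =>
      Set.ncard_union_le _ _
    have hbasis : ∀ i j, i ≠ j → IsTranscendenceBasis ℚ (Subtype.val : ↥(B i ∪ B j) → K) := by
      intro i j hij
      haveI : Algebra.IsAlgebraic (Algebra.adjoin ℚ (B i ∪ B j)) K := ⟨hall i j hij⟩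
      haveI : Algebra.IsAlgebraic (Algebra.adjoin ℚ
          (Set.range (Subtype.val : ↥(B i ∪ B j) → K))) K := by
        rw [Subtype.range_val]; infer_instance
      haveI : Finite ↥(B i ∪ B j) := ((hfin i).union (hfin j)).to_subtype
      apply Algebra.IsAlgebraic.isTranscendenceBasis_of_le_trdeg_of_finite
      rw [hD, ← Set.cast_ncard ((hfin i).union (hfin j))]
      have h1 := hun i j
      have h2 := hcard i
      have h3 := hcard j
      exact_mod_cast (by omega : (B i ∪ B j).ncard ≤ D)
    have hdis : ∀ i j, i ≠ j → Disjoint (B i) (B j) := by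
      intro i j hij
      have h1 := Set.ncard_union_add_ncard_inter (B i) (B j) (hfin i) (hfin j)
      have h2 := hle i j hij
      have h3 := hcard i
      have h4 := hcard j
      have h5 : (B i ∩ B j).ncard = 0 := by omega
      rw [Set.ncard_eq_zero ((hfin i).inter_of_left _)] at h5
      rw [Set.disjoint_iff_inter_eq_empty]
      exact h5
    have hne : ∀ i, (B i).Nonempty := by
      intro i
      obtain ⟨j, hij⟩ := third i
      have h1 := hun i j
      have h2 := hle i j hij
      have h3 := hcard i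
      have h4 := hcard j
      rw [← Set.ncard_pos (hfin i)]
      omega
    -- the Latin square
    obtain ⟨T, hT, hsum⟩ := hN {φ : K →+* PowerSeries K // IsLift φ} (Fin a → PowerSeries K)
      (fun i φ l => φ.1 (w i l)) (by
        intro i j hij e f
        obtain ⟨g, hg1, hg2⟩ := hL K ↥(B i ∪ B j) Subtype.val (hbasis i j hij)
          (fun y => if (y : K) ∈ B i then e.1 y else f.1 y) (by
            intro y
            split_ifs
            · exact e.2 y
            · exact f.2 y)
        have hgi : ∀ y ∈ B i, g y = e.1 y := by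
          intro y hy
          have := hg2 ⟨y, Or.inl hy⟩
          simpa [hy] using this
        have hgj : ∀ y ∈ B j, g y = f.1 y := by
          intro y hy
          have hy' : y ∉ B i := fun h => Set.disjoint_left.1 (hdis i j hij) h hy
          have := hg2 ⟨y, Or.inr hy⟩
          simpa [hy'] using this
        refine ⟨⟨g, hg1⟩, ⟨?_, ?_⟩, ?_⟩
        · funext l
          exact uniq hU (B i) (hBa i _ ⟨l, rfl⟩) hg1 e.2 hgi
        · funext l
          exact uniq hU (B j) (hBa j _ ⟨l, rfl⟩) hg1 f.2 hgj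
        · rintro ⟨g', hg'⟩ ⟨h1, h2⟩
          apply Subtype.ext
          ext1 x
          refine uniq hU (B i ∪ B j) (hall i j hij x) hg' hg1 ?_
          rintro y (hy | hy)
          · obtain ⟨l, rfl⟩ := hBs i hy
            rw [hgi _ hy]
            exact congrFun h1 l
          · obtain ⟨l, rfl⟩ := hBs j hy
            rw [hgj _ hy]
            exact congrFun h2 l) (by
        intro i
        obtain ⟨j, hij⟩ := third i
        obtain ⟨b, hb⟩ := hne i
        obtain ⟨l, hl⟩ := hBs i hb
        choose φ hφ1 hφ2 hφ3 using lifts hL (B i ∪ B j) (hbasis i j hij) b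
        refine Set.infinite_of_injective_forall_mem (f := fun n : ℕ => fun l => φ n (w i l)) ?_ ?_
        · intro n n' hnn
          have h1 := congrFun hnn l
          simp only [hl] at h1
          rw [hφ2 n (Or.inl hb), hφ2 n' (Or.inl hb)] at h1
          exact val_inj h1
        · intro n
          exact ⟨⟨φ n, hφ1 n⟩, rfl⟩) m hm
    refine ⟨T.map ⟨Subtype.val, Subtype.val_injective⟩, ?_, ?_, ?_⟩
    · rw [Finset.card_map, hT]
    · intro φ hφ
      obtain ⟨ψ, -, rfl⟩ := Finset.mem_map.1 hφ
      exact ψ.2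
    · refine le_trans (le_of_eq ?_) hsum
      refine Finset.sum_congr rfl fun j _ => ?_
      congr 1
      rw [Finset.coe_map, Set.image_image]
      rfl
  · -- case B
    push Not at hA
    obtain ⟨i, j, hij, x, hx⟩ := hA
    obtain ⟨S, hSi, hSs, hSa⟩ := exists_basis (Set.range (w i) ∪ Set.range (w j))
    obtain ⟨S', hSS', hS'⟩ := exists_isTranscendenceBasis_superset (R := ℚ) (s := S) hSi
    have hb : ∃ b ∈ S', b ∉ S := by
      by_contra hcon
      push Not at hcon
      have h1 : S = S' := Set.Subset.antisymm hSS' hcon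
      apply hx
      have h2 := hS'.isAlgebraic
      rw [Subtype.range_val, ← h1] at h2
      have h3 : Al S x := h2.isAlgebraic x
      exact h3.mono hSs
    obtain ⟨b, hbS', hbS⟩ := hb
    choose φ hφ1 hφ2 hφ3 using lifts hL S' hS' b
    have hinj : Function.Injective φ := by
      intro n n' hnn
      have h1 : φ n b = φ n' b := by rw [hnn]
      rw [hφ2 n hbS', hφ2 n' hbS'] at h1
      exact val_inj h1
    set T : Finset (K →+* PowerSeries K) := (Finset.range m).map ⟨φ, hinj⟩ with hT
    have hTc : T.card = m := by rw [hT, Finset.card_map, Finset.card_range]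
    have hTm : ∀ ψ ∈ T, ∃ n, ψ = φ n := by
      intro ψ hψ
      obtain ⟨n, -, rfl⟩ := Finset.mem_map.1 hψ
      exact ⟨n, rfl⟩
    have hone : ∀ k, Set.range (w k) ⊆ Set.range (w i) ∪ Set.range (w j) →
        ((fun (φ : K →+* PowerSeries K) (l : Fin a) => φ (w k l)) ''
          (T : Set (K →+* PowerSeries K))).ncard ≤ 1 := by
      intro k hk
      rw [Set.ncard_le_one (Set.Finite.image _ T.finite_toSet)]
      rintro _ ⟨ψ, hψ, rfl⟩ _ ⟨ψ', hψ', rfl⟩
      obtain ⟨n, rfl⟩ := hTm ψ hψ
      obtain ⟨n', rfl⟩ := hTm ψ' hψ'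
      funext l
      refine uniq hU S (hSa _ (hk ⟨l, rfl⟩)) (hφ1 n) (hφ1 n') fun y hy => ?_
      have hyb : y ≠ b := fun h => hbS (h ▸ hy)
      rw [hφ3 n y (hSS' hy) hyb, hφ3 n' y (hSS' hy) hyb]
    refine ⟨T, hTc, fun ψ hψ => ?_, ?_⟩
    · obtain ⟨n, rfl⟩ := hTm ψ hψ
      exact hφ1 n
    · refine sum_le _ m i j hij (hone i Set.subset_union_left) (hone j Set.subset_union_right) ?_
      intro k
      have h1 := Set.ncard_image_le (f := fun (φ : K →+* PowerSeries K) (l : Fin a) => φ (w k l))
        T.finite_toSet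
      rw [Set.ncard_coe_finset, hTc] at h1
      exact h1

end Pool.Agent.T2h48.AB
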