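import Pool.Agent.T2h48.AB.Stm

/-!
# GEN: a quantifier-free formula is generically constant on an irreducible set
-/

set_option autoImplicit false

namespace Pool.Agent.T2h48.AB

open Pool.Agent.T2h48.DW

theorem t_GEN : S_GEN := by
  intro n φ P hP
  induction φ with
  | eq f =>
    by_cases hf : f ∈ P
    · exact ⟨1, (Ideal.ne_top_iff_one P).1 hP.ne_top, Or.inl fun k _ x hx _ => hx f hf⟩
    · exact ⟨f, hf, Or.inr fun k _ x _ hs => hs⟩
  | neg φ ih =>
    obtain ⟨s, hs, h⟩ := ih
    refine ⟨s, hs, ?_⟩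
    rcases h with h | h
    · exact Or.inr fun k _ x hx hsx => not_not_intro (h k x hx hsx)
    · exact Or.inl fun k _ x hx hsx => h k x hx hsx
  | and φ ψ ih1 ih2 =>
    obtain ⟨s, hs, h⟩ := ih1
    obtain ⟨t, ht, h'⟩ := ih2
    have hst : ∀ (k : Type) [Field k] (x : Fin n → k), MvPolynomial.aeval x (s * t) ≠ 0 →
        MvPolynomial.aeval x s ≠ 0 ∧ MvPolynomial.aeval x t ≠ 0 := by
      intro k _ x hx
      rw [map_mul] at hx
      exact ⟨left_ne_zero_of_mul hx, right_ne_zero_of_mul hx⟩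
    refine ⟨s * t, fun hm => (hP.mem_or_mem hm).elim hs ht, ?_⟩
    rcases h with h | h
    · rcases h' with h' | h'
      · exact Or.inl fun k _ x hx hsx =>
          ⟨h k x hx (hst k x hsx).1, h' k x hx (hst k x hsx).2⟩
      · exact Or.inr fun k _ x hx hsx hh => h' k x hx (hst k x hsx).2 hh.2
    · exact Or.inr fun k _ x hx hsx hh => h k x hx (hst k x hsx).1 hh.1

end Pool.Agent.T2h48.AB
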