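import Pool.Agent.T2h48.AB.Stm

/-!
# LIFT: liftings of the identity of `K` with given values on a transcendence basis
-/

set_option autoImplicit false

namespace Pool.Agent.T2h48.AB

theorem exists_e {F E ι : Type} [Field F] [Field E] [Algebra F E] (u : ι → E)
    (hu : AlgebraicIndependent F u) :
    ∃ e : FractionRing (MvPolynomial ι F) ≃+* IntermediateField.adjoin F (Set.range u),
      ∀ p : MvPolynomial ι F, ((e (algebraMap _ _ p) : IntermediateField.adjoin F (Set.range u)) : E)
      = MvPolynomial.aeval u p :=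
  ⟨hu.aevalEquivField.toRingEquiv, fun p => hu.aevalEquivField_algebraMap_apply_coe p⟩

/-- The embedding of `ℚ(u)` in `K⟦X⟧` with `u i ↦ h i`. -/
theorem lift_F {K : Type} [Field K] [CharZero K] {ι : Type} (u : ι → K)
    (hu : AlgebraicIndependent ℚ u) (h : ι → PowerSeries K)
    (hh : ∀ i, PowerSeries.constantCoeff (h i) = u i) :
    ∃ α : IntermediateField.adjoin ℚ (Set.range u) →+* PowerSeries K,
      (∀ a, PowerSeries.constantCoeff (α a) = (a : K)) ∧
      ∀ i, α ⟨u i, IntermediateField.subset_adjoin _ _ ⟨i, rfl⟩⟩ = h i := by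
  classical
  set g : MvPolynomial ι ℚ →ₐ[ℚ] PowerSeries K := MvPolynomial.aeval h with hg
  have hgc : ∀ p, PowerSeries.constantCoeff (g p) = MvPolynomial.aeval u p := by
    intro p
    induction p using MvPolynomial.induction_on with
    | C a =>
      rw [MvPolynomial.algHom_C, MvPolynomial.algHom_C]
      have : (PowerSeries.constantCoeff (R := K)).comp (algebraMap ℚ (PowerSeries K)) =
        algebraMap ℚ K := Subsingleton.elim _ _
      exact congrArg (fun f : ℚ →+* K => f a) this
    | add p q h1 h2 => rw [map_add, map_add, map_add, h1, h2]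
    | mul_X p i h1 => rw [map_mul, map_mul, map_mul, h1, hg, MvPolynomial.aeval_X, hh,
        MvPolynomial.aeval_X]
  have hunit : ∀ y : nonZeroDivisors (MvPolynomial ι ℚ), IsUnit ((g : MvPolynomial ι ℚ →+* PowerSeries K) y) := by
    intro y
    rw [PowerSeries.isUnit_iff_constantCoeff]
    show IsUnit (PowerSeries.constantCoeff (g y))
    rw [hgc, isUnit_iff_ne_zero]
    intro h0
    exact nonZeroDivisors.ne_zero y.2 (hu (by rw [h0, map_zero]))
  set G : FractionRing (MvPolynomial ι ℚ) →+* PowerSeries K := IsLocalization.lift hunit with hG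
  have hGa : ∀ p, G (algebraMap _ _ p) = g p := fun p => IsLocalization.lift_eq hunit p
  obtain ⟨e, hea⟩ : ∃ e : FractionRing (MvPolynomial ι ℚ) ≃+* IntermediateField.adjoin ℚ (Set.range u),
      ∀ p : MvPolynomial ι ℚ, ((e (algebraMap _ _ p) : IntermediateField.adjoin ℚ (Set.range u)) : K)
      = MvPolynomial.aeval u p :=
    exists_e u hu
  refine ⟨G.comp (e.symm : IntermediateField.adjoin ℚ (Set.range u) →+*
    FractionRing (MvPolynomial ι ℚ)), ?_, ?_⟩
  · intro a
    have h1 : ((PowerSeries.constantCoeff (R := K)).comp G) =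
        (algebraMap (IntermediateField.adjoin ℚ (Set.range u)) K).comp
          (e : FractionRing (MvPolynomial ι ℚ) →+* IntermediateField.adjoin ℚ (Set.range u)) := by
      apply IsLocalization.ringHom_ext (nonZeroDivisors (MvPolynomial ι ℚ))
      refine RingHom.ext fun p => ?_
      show PowerSeries.constantCoeff (G (algebraMap _ _ p)) =
          ((e (algebraMap _ _ p) : IntermediateField.adjoin ℚ (Set.range u)) : K)
      rw [hGa, hgc, hea]
    have h2 := congrArg (fun f : FractionRing (MvPolynomial ι ℚ) →+* K => f (e.symm a)) h1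
    have h3 : e (e.symm a) = a := e.apply_symm_apply a
    calc _ = ((e (e.symm a) : IntermediateField.adjoin ℚ (Set.range u)) : K) := h2
      _ = a := by rw [h3]
  · intro i
    have h4 : e (algebraMap (MvPolynomial ι ℚ) (FractionRing (MvPolynomial ι ℚ))
        (MvPolynomial.X i)) =
        ⟨u i, IntermediateField.subset_adjoin _ _ ⟨i, rfl⟩⟩ := by
      apply Subtype.ext
      rw [hea, MvPolynomial.aeval_X]
    show G (e.symm _) = h i
    rw [← h4, RingEquiv.symm_apply_apply, hGa, hg, MvPolynomial.aeval_X]

/-- Formally étale extensions lift along adically complete surjections with a section. -/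
theorem lift_gen {F K S : Type} [Field F] [Field K] [Algebra F K] [Algebra.IsSeparable F K]
    [CommRing S] (I : Ideal S) [IsAdicComplete I S] (s : K →+* S) (α : F →+* S)
    (hα : ∀ a, s (algebraMap F K a) - α a ∈ I) :
    ∃ g : K →+* S, (∀ a, g a - s a ∈ I) ∧ ∀ a, g (algebraMap F K a) = α a := by
  let _ : Algebra F S := α.toAlgebra
  have _ : Algebra.FormallyEtale F K := Algebra.FormallyEtale.of_isSeparable F K
  have _ : Algebra.FormallySmooth F K := inferInstance
  let f : K →ₐ[F] S ⧸ I :=
    { ((Ideal.Quotient.mk I).comp s) with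
      commutes' := fun a => (Ideal.Quotient.eq (I := I)).2 (hα a) }
  obtain ⟨g, hg⟩ := Algebra.FormallySmooth.exists_mkₐ_comp_eq_of_isAdicComplete f
  have hg' : ∀ a : K, (Ideal.Quotient.mk I) (g a) = (Ideal.Quotient.mk I) (s a) :=
    fun a => congrArg (fun k : K →ₐ[F] S ⧸ I => k a) hg
  exact ⟨(g : K →+* S), fun a => Ideal.Quotient.eq.1 (hg' a), fun a => g.commutes a⟩

theorem t_LIFT : S_LIFT := by
  intro K _ _ ι u hu h hh
  obtain ⟨α, hα, hαu⟩ := lift_F u hu.1 h hh
  have _ : Algebra.IsAlgebraic (IntermediateField.adjoin ℚ (Set.range u)) K :=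
    hu.isAlgebraic_field
  have _ : IsAdicComplete (Ideal.span {PowerSeries.X} : Ideal (PowerSeries K)) (PowerSeries K) :=
    inferInstance
  obtain ⟨g, hg1, hg2⟩ := lift_gen (Ideal.span {PowerSeries.X} : Ideal (PowerSeries K))
    (PowerSeries.C (R := K)) α (fun a => by
      rw [Ideal.mem_span_singleton, PowerSeries.X_dvd_iff, map_sub, hα,
        PowerSeries.constantCoeff_C]
      exact sub_self _)
  refine ⟨g, ?_, ?_⟩
  · intro a
    have h1 := hg1 a
    rw [Ideal.mem_span_singleton, PowerSeries.X_dvd_iff, map_sub,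
      PowerSeries.constantCoeff_C, sub_eq_zero] at h1
    exact h1
  · intro i
    rw [← hαu i]
    exact hg2 ⟨u i, IntermediateField.subset_adjoin _ _ ⟨i, rfl⟩⟩

end Pool.Agent.T2h48.AB
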