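import Pool.Agent.T2h48.AB.Stm

/-!
# LIFTU: uniqueness of liftings on algebraic elements
-/

set_option autoImplicit false

namespace Pool.Agent.T2h48.AB

open Polynomial

theorem liftu_F {K : Type} [Field K] [CharZero K] {ι : Type} (u : ι → K) (φ ψ : K →+* PowerSeries K)
    (hu : ∀ i, φ (u i) = ψ (u i)) (x : K) (hx : x ∈ IntermediateField.adjoin ℚ (Set.range u)) :
    φ x = ψ x := by
  induction hx using IntermediateField.adjoin_induction with
  | mem x hx => obtain ⟨i, rfl⟩ := hx; exact hu i
  | algebraMap q =>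
    have : φ.comp (algebraMap ℚ K) = ψ.comp (algebraMap ℚ K) := Subsingleton.elim _ _
    exact congrArg (fun f : ℚ →+* PowerSeries K => f q) this
  | add x y _ _ h1 h2 => rw [map_add, map_add, h1, h2]
  | inv x _ h =>
    by_cases hx0 : x = 0
    · subst hx0; simp
    · have h1 : φ x * φ x⁻¹ = 1 := by rw [← map_mul, mul_inv_cancel₀ hx0, map_one]
      have h2 : ψ x * ψ x⁻¹ = 1 := by rw [← map_mul, mul_inv_cancel₀ hx0, map_one]
      rw [← h] at h2
      have h3 : φ x ≠ 0 := by
        intro h0; rw [h0, zero_mul] at h1; exact zero_ne_one h1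
      exact mul_left_cancel₀ h3 (h1.trans h2.symm)
  | mul x y _ _ h1 h2 => rw [map_mul, map_mul, h1, h2]

theorem t_LIFTU : S_LIFTU := by
  intro K _ _ ι u x hx φ ψ hφ hψ hu
  have hF := liftu_F u φ ψ hu
  set F := IntermediateField.adjoin ℚ (Set.range u) with hFdef
  set m := minpoly F x with hm
  have hint : IsIntegral F x := hx.isIntegral
  have hsep : m.Separable := (minpoly.irreducible hint).separable
  set α : F →+* PowerSeries K := φ.comp (algebraMap F K) with hα
  have hαψ : α = ψ.comp (algebraMap F K) := by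
    ext1 y
    exact hF y y.2
  have h1 : (m.map α).eval (φ x) = 0 := by
    rw [eval_map, hα, ← Polynomial.hom_eval₂]
    have : eval₂ (algebraMap F K) x m = 0 := minpoly.aeval F x
    rw [this, map_zero]
  have h2 : (m.map α).eval (ψ x) = 0 := by
    rw [eval_map, hαψ, ← Polynomial.hom_eval₂]
    have : eval₂ (algebraMap F K) x m = 0 := minpoly.aeval F x
    rw [this, map_zero]
  have h3 : (m.map α).derivative.eval (φ x) = φ (aeval x m.derivative) := by
    rw [derivative_map, eval_map, hα, ← Polynomial.hom_eval₂]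
    rfl
  have h4 : aeval x m.derivative ≠ 0 := hsep.aeval_derivative_ne_zero (minpoly.aeval F x)
  obtain ⟨k, hk⟩ := (m.map α).binomExpansion (φ x) (ψ x - φ x)
  rw [add_sub_cancel, h1, h2, h3, zero_add] at hk
  have hk' : (ψ x - φ x) * (φ (aeval x m.derivative) + k * (ψ x - φ x)) = 0 := by
    rw [hk]; ring
  rcases mul_eq_zero.1 hk' with h | h
  · exact (sub_eq_zero.1 h).symm
  · exfalso
    apply h4
    have := congrArg PowerSeries.constantCoeff h
    rw [map_add, hφ, map_mul, map_sub, hψ, hφ, sub_self, mul_zero, add_zero, map_zero] at this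
    exact this

end Pool.Agent.T2h48.AB
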