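import Pool.Agent.T2h48.AB.Stm1
import Pool.Agent.T2h48.LZ.T_RING

/-!
# LOWER: the number of the values of a tuple of functions on a variety over finite fields
-/

set_option autoImplicit false

namespace Pool.Agent.T2h48.AB.LOWER

open IntermediateField.algebraAdjoinAdjoin in
theorem basis_part (A M : Type) [CommRing A] [IsDomain A] [CharZero A] [Field M] [CharZero M]
    [Algebra A M] [IsFractionRing A M] (S : Set A) (d : ℕ)
    (hd : Algebra.trdeg ℚ (IntermediateField.adjoin ℚ (algebraMap A M '' S)) = d) :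
    ∃ I : Set A, I ⊆ S ∧ AlgebraicIndepOn ℤ id I ∧ Cardinal.mk I = d := by
  set R := Algebra.adjoin ℚ (algebraMap A M '' S) with hR
  have hR1 : Algebra.trdeg ℚ R = d := by
    rw [← hd, ← _root_.trdeg_add_eq ℚ R (A := IntermediateField.adjoin ℚ (algebraMap A M '' S)),
      _root_.trdeg_eq_zero (R := R), add_zero]
  set s : Set R := Subtype.val ⁻¹' (algebraMap A M '' S) with hs
  have h1 : Algebra.adjoin ℚ s = ⊤ := by
    rw [hs, hR]
    exact Algebra.adjoin_adjoin_coe_preimage
  have h2 : Algebra.IsAlgebraic (Algebra.adjoin ℚ s) R := by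
    rw [h1]
    constructor
    intro x
    exact isAlgebraic_algebraMap (⟨x, trivial⟩ : (⊤ : Subalgebra ℚ R))
  obtain ⟨t, hts, ht⟩ := exists_isTranscendenceBasis_subset (R := ℚ) s
  have ht1 : Cardinal.mk t = d := by rw [← hR1, ht.cardinalMk_eq_trdeg]
  have hch : ∀ x : t, ∃ a : A, a ∈ S ∧ algebraMap A M a = ((x : R) : M) := by
    intro x
    obtain ⟨a, ha, hx⟩ := hts x.2
    exact ⟨a, ha, hx⟩
  choose f hf1 hf2 using hch
  have hinj : Function.Injective f := by
    intro x y hxy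
    apply Subtype.ext
    apply Subtype.ext
    rw [← hf2, ← hf2, hxy]
  have hind : AlgebraicIndependent ℚ (fun x : t => ((x : R) : M)) :=
    ht.1.map' (f := R.val) Subtype.val_injective
  have hind2 : AlgebraicIndependent ℤ (fun x : t => ((x : R) : M)) := hind.restrictScalars
    (RingHom.injective_int (algebraMap ℤ ℚ))
  have hind3 : AlgebraicIndependent ℤ f := by
    have : (fun x : t => ((x : R) : M)) = (algebraMap A M).toIntAlgHom ∘ f := by
      funext x
      exact (hf2 x).symm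
    rw [this] at hind2
    exact AlgebraicIndependent.of_comp _ hind2
  refine ⟨Set.range f, ?_, ?_, ?_⟩
  · rintro _ ⟨x, rfl⟩
    exact hf1 x
  · exact hind3.to_subtype_range
  · rw [Cardinal.mk_range_eq f hinj, ht1]

theorem trdeg_int (A M : Type) [CommRing A] [IsDomain A] [Field M] [CharZero M] [Algebra A M]
    [IsFractionRing A M] : Algebra.trdeg ℤ A = Algebra.trdeg ℚ M := by
  have hinj : Function.Injective (algebraMap A M) := IsFractionRing.injective A M
  have hA : CharZero A := by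
    constructor
    intro x y h
    have := congrArg (algebraMap A M) h
    rw [map_natCast, map_natCast] at this
    exact_mod_cast this
  have i0 : FaithfulSMul A M := (faithfulSMul_iff_algebraMap_injective A M).2 hinj
  have i1 : FaithfulSMul ℤ A := (faithfulSMul_iff_algebraMap_injective ℤ A).2
    (RingHom.injective_int _)
  have e1 := _root_.trdeg_add_eq ℤ A (A := M)
  have e2 := _root_.trdeg_add_eq ℤ ℚ (A := M)
  have i3 : Algebra.IsAlgebraic A M := IsLocalization.isAlgebraic _ (nonZeroDivisors A)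
  have i4 : Algebra.IsAlgebraic ℤ ℚ := IsLocalization.isAlgebraic _ (nonZeroDivisors ℤ)
  rw [_root_.trdeg_eq_zero (R := A), add_zero] at e1
  rw [_root_.trdeg_eq_zero (R := ℤ) (A := ℚ), zero_add] at e2
  rw [e1, e2]

theorem exists_basis (A M : Type) [CommRing A] [IsDomain A] [CharZero A] [Algebra.FiniteType ℤ A]
    [Field M] [CharZero M] [Algebra A M] [IsFractionRing A M] (V : Set A) (d D : ℕ)
    (hd : Algebra.trdeg ℚ (IntermediateField.adjoin ℚ (algebraMap A M '' V)) = d)
    (hD : Algebra.trdeg ℚ (FractionRing A) = D) :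
    ∃ (G : Finset A), G.card + d = D ∧
      Algebra.IsAlgebraic (Algebra.adjoin ℤ (V ∪ G)) A := by
  classical
  obtain ⟨I, hI1, hI2, hI3⟩ := basis_part A M V d hd
  obtain ⟨S, hS⟩ := (inferInstance : Algebra.FiniteType ℤ A).out
  have h0 : Algebra.IsAlgebraic (Algebra.adjoin ℤ (I ∪ S)) A := by
    have : Algebra.adjoin ℤ (I ∪ (S : Set A)) = ⊤ := by
      rw [eq_top_iff, ← hS]
      exact Algebra.adjoin_mono Set.subset_union_right
    rw [this]
    constructor
    intro x
    exact isAlgebraic_algebraMap (⟨x, trivial⟩ : (⊤ : Subalgebra ℤ A))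
  obtain ⟨u, hu1, hu2, hu3⟩ := exists_isTranscendenceBasis_between (R := ℤ) I (I ∪ S)
    Set.subset_union_left hI2
  have hu4 : Cardinal.mk u = D := by
    rw [hu3.cardinalMk_eq_trdeg, ← hD]
    exact trdeg_int A (FractionRing A)
  have hIfin : I.Finite := by
    rw [← Set.finite_coe_iff, ← Cardinal.mk_lt_aleph0_iff, hI3]
    exact Cardinal.natCast_lt_aleph0
  have hufin : u.Finite := by
    rw [← Set.finite_coe_iff, ← Cardinal.mk_lt_aleph0_iff, hu4]
    exact Cardinal.natCast_lt_aleph0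
  have hI5 : I.ncard = d := by
    rw [← Nat.card_coe_set_eq, Nat.card, hI3, Cardinal.toNat_natCast]
  have hu5 : u.ncard = D := by
    rw [← Nat.card_coe_set_eq, Nat.card, hu4, Cardinal.toNat_natCast]
  have hdiff : (u \ I).Finite := hufin.subset Set.sdiff_subset
  refine ⟨hdiff.toFinset, ?_, ?_⟩
  · rw [← Set.ncard_eq_toFinset_card _ hdiff, ← hu5, ← hI5]
    exact Set.ncard_sdiff_add_ncard_of_subset hu1 hufin
  · have h3 := hu3.isAlgebraic
    rw [Subtype.range_coe] at h3
    have hle : Algebra.adjoin ℤ u ≤ Algebra.adjoin ℤ (V ∪ (hdiff.toFinset : Set A)) := by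
      apply Algebra.adjoin_mono
      intro x hx
      by_cases hxI : x ∈ I
      · exact Or.inl (hI1 hxI)
      · right
        rw [Set.Finite.coe_toFinset]
        exact ⟨hx, hxI⟩
    constructor
    intro x
    obtain ⟨p, hp0, hp⟩ := h3.isAlgebraic x
    refine ⟨p.map (Subalgebra.inclusion hle).toRingHom, ?_, ?_⟩
    · rw [Polynomial.map_ne_zero_iff]
      · exact hp0
      · exact Subalgebra.inclusion_injective hle
    · rw [Polynomial.aeval_def, Polynomial.eval₂_map]
      exact hp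

theorem count {A : Type} [CommRing A] [IsDomain A] [Algebra.FiniteType ℤ A] {a : ℕ} (v : Fin a → A)
    (G : Finset A) (halg : Algebra.IsAlgebraic (Algebra.adjoin ℤ (Set.range v ∪ G)) A) :
    ∃ (c : A) (C : ℕ), c ≠ 0 ∧ ∀ t : A, c ∣ t → ∀ (k : Type) [Field k] [Finite k]
      [Finite (A →+* k)], Nat.card {ψ : A →+* k // ψ t ≠ 0} ≤ C * (
        (Set.range fun (ψ : {ψ : A →+* k // ψ t ≠ 0}) (i : Fin a) => ψ.1 (v i)).ncard *
          Nat.card k ^ G.card) := by
  classical
  obtain ⟨S, hS⟩ := (inferInstance : Algebra.FiniteType ℤ A).out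
  set R := Algebra.adjoin ℤ (Set.range v ∪ (G : Set A)) with hR
  have hch : ∀ g : A, ∃ p : Polynomial R, p ≠ 0 ∧ Polynomial.aeval g p = 0 := fun g =>
    halg.isAlgebraic g
  choose p hp0 hp using hch
  have hlc : ∀ g : A, ((p g).leadingCoeff : A) ≠ 0 := by
    intro g h
    exact hp0 g (Polynomial.leadingCoeff_eq_zero.1 (Subtype.ext h))
  refine ⟨∏ g ∈ S, ((p g).leadingCoeff : A), ∏ g ∈ S, (p g).natDegree,
    Finset.prod_ne_zero_iff.2 fun g _ => hlc g, ?_⟩
  intro t ht k _ _ _
  have hk : Fintype k := Fintype.ofFinite k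
  have hf : Fintype (A →+* k) := Fintype.ofFinite _
  set s : Finset (A →+* k) := Finset.univ.filter fun ψ => ψ t ≠ 0 with hs
  let f : (A →+* k) → (Fin a → k) × (G → k) := fun ψ => (fun i => ψ (v i), fun g => ψ g)
  have h1 : s.card ≤ (∏ g ∈ S, (p g).natDegree) * (s.image f).card := by
    refine Finset.card_le_mul_card_image s _ ?_
    intro y hy
    obtain ⟨ψ₀, hψ₀, rfl⟩ := Finset.mem_image.1 hy
    have hψ₀' : ψ₀ t ≠ 0 := (Finset.mem_filter.1 hψ₀).2
    set P : A → Polynomial k := fun g => (p g).map (ψ₀.comp R.val.toRingHom) with hP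
    have hPlc : ∀ g ∈ S, ψ₀ ((p g).leadingCoeff : A) ≠ 0 := by
      intro g hg h
      apply hψ₀'
      obtain ⟨b, rfl⟩ := (Finset.dvd_prod_of_mem (fun g => ((p g).leadingCoeff : A)) hg).trans ht
      rw [map_mul, h, zero_mul]
    have hP0 : ∀ g ∈ S, P g ≠ 0 := by
      intro g hg h
      apply hPlc g hg
      have := congrArg (fun q => Polynomial.coeff q (p g).natDegree) h
      simp only [hP, Polynomial.coeff_map, Polynomial.coeff_natDegree, Polynomial.coeff_zero] at this
      exact this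
    have hPd : ∀ g, (P g).natDegree ≤ (p g).natDegree := fun g => Polynomial.natDegree_map_le
    have hroot : ∀ ψ : A →+* k, f ψ = f ψ₀ → ∀ g, (P g).eval (ψ g) = 0 := by
      intro ψ hψ g
      have hag : ∀ r : R, ψ r = ψ₀ r := by
        have hle : R ≤ AlgHom.equalizer ψ.toIntAlgHom ψ₀.toIntAlgHom := by
          rw [hR]
          apply Algebra.adjoin_le
          rintro x (⟨i, rfl⟩ | hx)
          · exact congrFun (congrArg Prod.fst hψ) i
          · exact congrFun (congrArg Prod.snd hψ) ⟨x, hx⟩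
        intro r
        exact hle r.2
      have hcomp : ψ₀.comp R.val.toRingHom = ψ.comp R.val.toRingHom := by
        refine RingHom.ext fun r => (hag r).symm
      have h2 := congrArg ψ (hp g)
      rw [Polynomial.aeval_def, Polynomial.hom_eval₂, map_zero] at h2
      rw [hP]
      simp only
      rw [Polynomial.eval_map, hcomp]
      exact h2
    have h3 : (s.filter fun x => f x = f ψ₀).card ≤
        (Fintype.piFinset fun g : S => (P g).roots.toFinset).card := by
      refine Finset.card_le_card_of_injOn (fun ψ (g : S) => ψ g) ?_ ?_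
      · intro ψ hψ
        rw [Finset.mem_coe, Fintype.mem_piFinset]
        intro g
        rw [Multiset.mem_toFinset, Polynomial.mem_roots (hP0 g g.2)]
        exact hroot ψ (Finset.mem_filter.1 (Finset.mem_coe.1 hψ)).2 g
      · intro ψ _ ψ' _ h
        have h2 : ψ.toIntAlgHom = ψ'.toIntAlgHom := by
          refine AlgHom.ext_of_adjoin_eq_top hS fun x hx => ?_
          exact congrFun h ⟨x, hx⟩
        refine RingHom.ext fun x => ?_
        exact DFunLike.congr_fun h2 x
    refine h3.trans ?_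
    rw [Fintype.card_piFinset]
    rw [← Finset.prod_coe_sort S (fun g => (p g).natDegree)]
    refine Finset.prod_le_prod' fun g _ => ?_
    exact (Multiset.toFinset_card_le _).trans ((Polynomial.card_roots' _).trans (hPd g))
  have h2 : (s.image f).card ≤ (s.image fun ψ (i : Fin a) => ψ (v i)).card * Nat.card k ^ G.card := by
    have h3 : s.image f ⊆ (s.image fun ψ (i : Fin a) => ψ (v i)) ×ˢ (Finset.univ : Finset (G → k)) := by
      intro y hy
      obtain ⟨ψ, hψ, rfl⟩ := Finset.mem_image.1 hy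
      rw [Finset.mem_product]
      exact ⟨Finset.mem_image_of_mem _ hψ, Finset.mem_univ _⟩
    refine (Finset.card_le_card h3).trans ?_
    rw [Finset.card_product, Finset.card_univ, Fintype.card_fun, Nat.card_eq_fintype_card,
      Fintype.card_coe]
  have h3 : Nat.card {ψ : A →+* k // ψ t ≠ 0} = s.card := by
    rw [Nat.card_eq_fintype_card, Fintype.card_subtype]
  have h4 : (Set.range fun (ψ : {ψ : A →+* k // ψ t ≠ 0}) (i : Fin a) => ψ.1 (v i)).ncard =
      (s.image fun ψ (i : Fin a) => ψ (v i)).card := by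
    rw [← Set.ncard_coe_finset]
    congr 1
    ext y
    constructor
    · rintro ⟨ψ, rfl⟩
      rw [Finset.mem_coe, Finset.mem_image]
      exact ⟨ψ.1, Finset.mem_filter.2 ⟨Finset.mem_univ _, ψ.2⟩, rfl⟩
    · intro hy
      obtain ⟨ψ, hψ, rfl⟩ := Finset.mem_image.1 (Finset.mem_coe.1 hy)
      exact ⟨⟨ψ, (Finset.mem_filter.1 hψ).2⟩, rfl⟩
  rw [h3, h4]
  exact h1.trans (Nat.mul_le_mul_left _ h2)

end Pool.Agent.T2h48.AB.LOWER

namespace Pool.Agent.T2h48.AB

open NumberField

/-- **LOWER** -/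
theorem t_LOWER (hL : LZ.S_LANDAU) : S_LOWER := by
  intro A M _ _ _ _ _ _ _ _ a d v hd s₀ hs₀
  obtain ⟨L, _, _, D, hD, ⟨e⟩, sL, hsL0, hsL⟩ := hL A
  have hd' : Algebra.trdeg ℚ (IntermediateField.adjoin ℚ (algebraMap A M '' Set.range v)) = d := by
    rw [← hd, ← Set.range_comp]
    rfl
  obtain ⟨G, hG, halg⟩ := LOWER.exists_basis A M (Set.range v) d D hd' hD
  obtain ⟨c, C₀, hc0, hc⟩ := LOWER.count v G halg
  obtain ⟨s', hs'0, hs'⟩ := LZ.exists_hom (A := A) (M := FractionRing A) (L := L)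
    (e.comp (algebraMap (𝓞 L) L))
  set t : A := s₀ * sL * c with ht
  have ht0 : t ≠ 0 := mul_ne_zero (mul_ne_zero hs₀ hsL0) hc0
  obtain ⟨C, N, hC0, hN0, hN⟩ := hsL t ht0 ⟨s₀ * c, by rw [ht]; ring⟩
  refine ⟨2 * C₀, max N (⌈4 * C ^ 2⌉₊), s', hs'0, ?_⟩
  rintro k _ _ hk ⟨ψ, hψ⟩
  obtain ⟨hNk, hCk⟩ := max_lt_iff.1 hk
  have hcast : ((N : ℕ) : k) ≠ 0 := by
    intro h0
    rw [ringChar.spec] at h0
    exact absurd (Nat.le_of_dvd (Nat.pos_of_ne_zero hN0) h0) (not_le.2 hNk)
  have hfin : Finite (A →+* k) := LZ.hom_finite A k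
  have h1 := hN k hcast
  set q := Nat.card k with hq
  have hchar : ringChar k ≤ q := by
    have : Fintype k := Fintype.ofFinite k
    rw [hq, Nat.card_eq_fintype_card]
    have hp : (ringChar k).Prime := by
      have : CharP k (ringChar k) := ringChar.charP k
      exact CharP.char_is_prime k (ringChar k)
    refine Nat.le_of_dvd Fintype.card_pos ?_
    rw [← ringChar.spec]
    exact FiniteField.cast_card_eq_zero k
  have hq4 : 4 * C ^ 2 ≤ q := by
    have h2 : 4 * C ^ 2 ≤ (⌈4 * C ^ 2⌉₊ : ℝ) := Nat.le_ceil _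
    have h3 : (⌈4 * C ^ 2⌉₊ : ℝ) ≤ q := by exact_mod_cast (hCk.le.trans hchar)
    linarith
  have hq1 : 1 ≤ q := Nat.card_pos
  have hq1' : (1 : ℝ) ≤ q := by exact_mod_cast hq1
  have hsq : 2 * C ≤ √(q : ℝ) := by
    apply Real.le_sqrt_of_sq_le
    nlinarith
  have hsq1 : 1 ≤ √(q : ℝ) := Real.one_le_sqrt.2 hq1'
  have hne : 1 ≤ Nat.card (𝓞 L →+* k) := by
    have := (W385.CP.hom_int L k).1
    have := hs' k ψ hψ
    exact Nat.card_pos
  have hne' : (1 : ℝ) ≤ Nat.card (𝓞 L →+* k) := by exact_mod_cast hne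
  set n := Nat.card {φ : A →+* k // φ t ≠ 0} with hn
  have hqD : (0 : ℝ) < (q : ℝ) ^ D := by positivity
  have h2 : (q : ℝ) ^ D ≤ 2 * n := by
    by_contra hlt
    push Not at hlt
    have h3 : (q : ℝ) ^ D / 2 < |(n : ℝ) - Nat.card (𝓞 L →+* k) * (q : ℝ) ^ D| := by
      rw [abs_sub_comm]
      refine lt_of_lt_of_le ?_ (le_abs_self _)
      nlinarith
    have h4 : (q : ℝ) ^ D / 2 * √(q : ℝ) <
        |(n : ℝ) - Nat.card (𝓞 L →+* k) * (q : ℝ) ^ D| * √(q : ℝ) :=
      mul_lt_mul_of_pos_right h3 (by linarith)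
    nlinarith
  have h2' : q ^ D ≤ 2 * n := by exact_mod_cast h2
  have h3 := hc t ⟨s₀ * sL, by rw [ht]; ring⟩ k
  set X := (Set.range fun (ψ : {ψ : A →+* k // ψ t ≠ 0}) (i : Fin a) => ψ.1 (v i)).ncard with hX
  have h4 : X ≤ (Set.range fun (ψ : {ψ : A →+* k // ψ s₀ ≠ 0}) (i : Fin a) => ψ.1 (v i)).ncard := by
    refine Set.ncard_le_ncard ?_ (Set.toFinite _)
    rintro _ ⟨φ, rfl⟩
    refine ⟨⟨φ.1, ?_⟩, rfl⟩
    intro h
    apply φ.2
    show φ.1 (s₀ * sL * c) = 0
    rw [map_mul, map_mul, h, zero_mul, zero_mul]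
  have h5 : q ^ D ≤ 2 * C₀ * X * q ^ G.card := by
    calc q ^ D ≤ 2 * n := h2'
      _ ≤ 2 * (C₀ * (X * q ^ G.card)) := Nat.mul_le_mul_left _ h3
      _ = _ := by ring
  rw [← hG, pow_add, mul_comm] at h5
  have h6 := Nat.le_of_mul_le_mul_right h5 (by positivity)
  exact h6.trans (Nat.mul_le_mul_left _ h4)

end Pool.Agent.T2h48.AB
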