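import Pool.Agent.T2h48.AB.Stm

/-!
# NET: an infinite Latin square contains `m` cells in at most `m + 3` lines
-/

set_option autoImplicit false

namespace Pool.Agent.T2h48.AB

theorem net_arith (a : Fin 3 → ℕ) (m : ℕ) (hm : 1 ≤ m) (h : ∀ i j, i ≠ j → a i * a j = m)
    (hs : ∑ i, a i = m + 3) : False := by
  rw [Fin.sum_univ_three] at hs
  have h01 := h 0 1 (by decide)
  have h02 := h 0 2 (by decide)
  have h12 := h 1 2 (by decide)
  have p0 : 0 < a 0 := Nat.pos_of_ne_zero (fun h0 => by rw [h0, zero_mul] at h01; omega)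
  have p2 : 0 < a 2 := Nat.pos_of_ne_zero (fun h0 => by rw [h0, mul_zero] at h12; omega)
  have e1 : a 1 = a 2 := Nat.eq_of_mul_eq_mul_left p0 (h01.trans h02.symm)
  have e2 : a 0 = a 1 := Nat.eq_of_mul_eq_mul_right p2 (h02.trans h12.symm)
  rw [e2, e1] at hs h01
  rcases Nat.lt_or_ge (a 2) 3 with h3 | h3
  · interval_cases (a 2) <;> omega
  · nlinarith

theorem net_sum (a b : Fin 3 → ℕ) (i j : Fin 3) (hij : i ≠ j) (hi : b i = a i) (hj : b j = a j)
    (h1 : ∀ k, b k ≤ a k + 1) : ∑ k, b k ≤ ∑ k, a k + 1 := by
  have h10 := h1 0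
  have h11 := h1 1
  have h12 := h1 2
  have h3 : ∀ i : Fin 3, i = 0 ∨ i = 1 ∨ i = 2 := by decide
  rw [Fin.sum_univ_three, Fin.sum_univ_three]
  rcases h3 i with rfl | rfl | rfl <;> rcases h3 j with rfl | rfl | rfl <;>
    first | exact absurd rfl hij | omega

theorem t_NET : S_NET := by
  classical
  intro E V r hr hinf m hm
  suffices H : ∃ T : Finset E, T.card = m ∧ ∑ i, (T.image (r i)).card ≤ m + 3 by
    obtain ⟨T, hT, hs⟩ := H
    refine ⟨T, hT, ?_⟩
    refine le_of_eq_of_le (Finset.sum_congr rfl fun i _ => ?_) hs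
    rw [← Finset.coe_image, Set.ncard_coe_finset]
  induction m, hm using Nat.le_induction with
  | base =>
    obtain ⟨_, e, _⟩ := (hinf 0).nonempty
    exact ⟨{e}, by simp, by simp⟩
  | succ m hm ih =>
    obtain ⟨T, hT, hs⟩ := ih
    have hTne : T.Nonempty := Finset.card_pos.1 (by omega)
    rcases Nat.lt_or_ge (∑ i, (T.image (r i)).card) (m + 3) with h | h
    · obtain ⟨e, he⟩ := hTne
      obtain ⟨v, ⟨f, rfl⟩, hv⟩ := ((hinf 1).sdiff (T.image (r 1)).finite_toSet).nonempty
      obtain ⟨g, ⟨hg0, hg1⟩, -⟩ := hr 0 1 (by decide) e f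
      have hgT : g ∉ T := by
        intro hg
        apply hv
        rw [← hg1]
        exact Finset.mem_coe.2 (Finset.mem_image_of_mem _ hg)
      refine ⟨insert g T, by rw [Finset.card_insert_of_notMem hgT, hT], ?_⟩
      have h0 : ((insert g T).image (r 0)).card = (T.image (r 0)).card := by
        rw [Finset.image_insert, hg0, Finset.insert_eq_of_mem (Finset.mem_image_of_mem _ he)]
      have h1 : ∀ i, ((insert g T).image (r i)).card ≤ (T.image (r i)).card + 1 := by
        intro i
        rw [Finset.image_insert]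
        exact Finset.card_insert_le _ _
      rw [Fin.sum_univ_three] at h ⊢
      have := h1 1
      have := h1 2
      omega
    · have hs' : ∑ i, (T.image (r i)).card = m + 3 := le_antisymm hs h
      by_cases hex : ∃ i j : Fin 3, i ≠ j ∧ ∃ g, g ∉ T ∧ r i g ∈ T.image (r i) ∧
          r j g ∈ T.image (r j)
      · obtain ⟨i, j, hij, g, hgT, hi, hj⟩ := hex
        refine ⟨insert g T, by rw [Finset.card_insert_of_notMem hgT, hT], ?_⟩
        have hi' : ((insert g T).image (r i)).card = (T.image (r i)).card := by
          rw [Finset.image_insert, Finset.insert_eq_of_mem hi]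
        have hj' : ((insert g T).image (r j)).card = (T.image (r j)).card := by
          rw [Finset.image_insert, Finset.insert_eq_of_mem hj]
        have h1 : ∀ i, ((insert g T).image (r i)).card ≤ (T.image (r i)).card + 1 := by
          intro i
          rw [Finset.image_insert]
          exact Finset.card_insert_le _ _
        have := net_sum _ (fun i => ((insert g T).image (r i)).card) i j hij hi' hj' h1
        refine this.trans ?_
        omega
      · exfalso
        push Not at hex
        apply net_arith (fun i => (T.image (r i)).card) m hm _ hs'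
        intro i j hij
        show (T.image (r i)).card * (T.image (r j)).card = m
        rw [← Finset.card_product, ← hT]
        symm
        refine Finset.card_bij (fun g _ => (r i g, r j g)) ?_ ?_ ?_
        · intro g hg
          exact Finset.mem_product.2 ⟨Finset.mem_image_of_mem _ hg, Finset.mem_image_of_mem _ hg⟩
        · intro g hg g' hg' he
          have h1 : r i g = r i g' := (Prod.ext_iff.1 he).1
          have h2 : r j g = r j g' := (Prod.ext_iff.1 he).2
          obtain ⟨k, -, hk⟩ := hr i j hij g g
          exact (hk g ⟨rfl, rfl⟩).trans (hk g' ⟨h1.symm, h2.symm⟩).symm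
        · rintro ⟨x, y⟩ hxy
          obtain ⟨hx, hy⟩ := Finset.mem_product.1 hxy
          obtain ⟨e, he, rfl⟩ := Finset.mem_image.1 hx
          obtain ⟨f, hf, rfl⟩ := Finset.mem_image.1 hy
          obtain ⟨g, ⟨hg0, hg1⟩, -⟩ := hr i j hij e f
          refine ⟨g, ?_, by rw [hg0, hg1]⟩
          by_contra hgT
          exact hex i j hij g hgT (by rw [hg0]; exact hx) (by rw [hg1]; exact hy)

end Pool.Agent.T2h48.AB
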