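import Pool.Agent.T2h48.AB.Stm1
import Pool.Agent.T2h48.LZ.T_RING

/-!
# POINTS: configurations over finite fields from a configuration over `M⟦X⟧`
-/

set_option autoImplicit false

namespace Pool.Agent.T2h48.AB

open NumberField Pool.Agent.R410.LW Pool.Agent.T2h48.LZ

/-- an embedding of `L` in the field of fractions of a subring of `M⟦X⟧` gives `𝓞 L → M` -/
theorem points_hom {M : Type} [Field M] (B : Subalgebra ℤ (PowerSeries M)) {L : Type} [Field L]
    [NumberField L] (e : L →+* FractionRing B) : Nonempty (𝓞 L →+* M) := by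
  have hinj : Function.Injective (algebraMap (PowerSeries M) (FractionRing (PowerSeries M))) :=
    IsFractionRing.injective _ _
  have hB : Function.Injective ((algebraMap (PowerSeries M) (FractionRing (PowerSeries M))).comp
      (B.val : B →+* PowerSeries M)) := hinj.comp Subtype.val_injective
  let g : FractionRing B →+* FractionRing (PowerSeries M) := IsFractionRing.lift hB
  let f : 𝓞 L →+* FractionRing (PowerSeries M) := (g.comp e).comp (algebraMap (𝓞 L) L)
  have hf : ∀ x : 𝓞 L, ∃ y : PowerSeries M, algebraMap (PowerSeries M) (FractionRing (PowerSeries M)) y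
      = f x := by
    intro x
    have h1 : IsIntegral ℤ x := RingOfIntegers.isIntegral x
    obtain ⟨p, hp, hx⟩ := h1
    have h3 : IsIntegral (PowerSeries M) (f x) := by
      refine ⟨p.map (Int.castRingHom (PowerSeries M)), hp.map _, ?_⟩
      rw [Polynomial.eval₂_map]
      have h4 : (algebraMap (PowerSeries M) (FractionRing (PowerSeries M))).comp
          (Int.castRingHom (PowerSeries M)) = f.comp (algebraMap ℤ (𝓞 L)) := RingHom.ext_int _ _
      rw [h4, ← Polynomial.hom_eval₂, hx, map_zero]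
    exact IsIntegrallyClosed.isIntegral_iff.1 h3
  have hr : ∀ x, f x ∈ (algebraMap (PowerSeries M) (FractionRing (PowerSeries M))).range := hf
  let f1 : 𝓞 L →+* (algebraMap (PowerSeries M) (FractionRing (PowerSeries M))).range :=
    f.codRestrict _ hr
  let e1 : PowerSeries M ≃+* (algebraMap (PowerSeries M) (FractionRing (PowerSeries M))).range :=
    RingEquiv.ofBijective
      (algebraMap (PowerSeries M) (FractionRing (PowerSeries M))).rangeRestrict
      ⟨fun x y h => hinj (congrArg Subtype.val h), RingHom.rangeRestrict_surjective _⟩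
  exact ⟨(PowerSeries.constantCoeff (R := M)).comp ((e1.symm : _ →+* PowerSeries M).comp f1)⟩

theorem t_POINTS (hL : S_LANDAU) : S_POINTS := by
  classical
  intro A M _ _ _ _ _ _ _ B hB t ht
  have hMc : CharZero M := charZero_of_injective_algebraMap (IsFractionRing.injective A M)
  have hPc : CharZero (PowerSeries M) :=
    charZero_of_injective_algebraMap (R := M) (A := PowerSeries M)
      (algebraMap M (PowerSeries M)).injective
  have hBc : CharZero B := inferInstance
  have hBf : @Algebra.FiniteType ℤ B _ _ (Ring.toIntAlgebra B) := by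
    have h := B.fg_iff_finiteType.1 hB
    have e : (B.algebra : Algebra ℤ B) = Ring.toIntAlgebra B := Subsingleton.elim _ _
    rw [← e]
    exact h
  obtain ⟨L, _, _, d, -, ⟨e⟩, s, hs, hlan⟩ := hL B
  obtain ⟨C, N, hC, hN, hlan⟩ := hlan (t * s) (mul_ne_zero ht hs) (dvd_mul_left _ _)
  obtain ⟨j⟩ := points_hom B e
  obtain ⟨a, ha, hhom⟩ := exists_hom (A := A) (M := M) j
  refine ⟨a, N + ⌈C ^ 2⌉₊, ha, ?_⟩
  intro k _ _ hk hψ
  obtain ⟨ψ, hψ⟩ := hψ
  have hOL : Nonempty (𝓞 L →+* k) := hhom k ψ hψ
  have hfin : Finite (𝓞 L →+* k) := hom_finite (𝓞 L) k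
  have hH : 1 ≤ Nat.card (𝓞 L →+* k) := Nat.card_pos
  have hp : ((N : ℕ) : k) ≠ 0 := by
    intro h0
    have h1 := (ringChar.spec k N).1 h0
    have := Nat.le_of_dvd (Nat.pos_of_ne_zero hN) h1
    omega
  have hq : ringChar k ≤ Nat.card k := by
    have hf : Fintype k := Fintype.ofFinite k
    rw [Nat.card_eq_fintype_card]
    obtain ⟨n, hn, hc⟩ := FiniteField.card k (ringChar k)
    rw [hc]
    exact Nat.le_self_pow n.ne_zero _
  have hlan := hlan k hp
  set q : ℝ := (Nat.card k : ℝ) with hqdef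
  have hqC : C ^ 2 < q := by
    have h1 : (⌈C ^ 2⌉₊ : ℝ) < q := by
      rw [hqdef]
      exact_mod_cast (by omega : ⌈C ^ 2⌉₊ < Nat.card k)
    exact lt_of_le_of_lt (Nat.le_ceil _) h1
  have hq0 : 0 < q := lt_of_le_of_lt (sq_nonneg C) hqC
  have hsq : C < √q := Real.lt_sqrt_of_sq_lt hqC
  have hqd : 0 < q ^ d := pow_pos hq0 d
  by_contra hcon
  push Not at hcon
  have hemp : IsEmpty {φ : B →+* k // φ (t * s) ≠ 0} := by
    constructor
    rintro ⟨φ, hφ⟩
    rw [map_mul] at hφ
    exact left_ne_zero_of_mul hφ (hcon φ)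
  rw [Nat.card_of_isEmpty, Nat.cast_zero, zero_sub, abs_neg, abs_of_nonneg (by positivity)] at hlan
  have h1 : (1 : ℝ) ≤ (Nat.card (𝓞 L →+* k) : ℝ) := by exact_mod_cast hH
  have h2 : q ^ d * √q ≤ C * q ^ d := by
    refine le_trans ?_ hlan
    have : q ^ d ≤ (Nat.card (𝓞 L →+* k) : ℝ) * q ^ d := le_mul_of_one_le_left hqd.le h1
    exact mul_le_mul_of_nonneg_right this (Real.sqrt_nonneg _)
  have h3 : C * q ^ d < q ^ d * √q := by
    rw [mul_comm]
    exact mul_lt_mul_of_pos_left hsq hqd
  exact absurd h2 (not_le.2 h3)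

end Pool.Agent.T2h48.AB
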