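import Pool.Agent.T2h48.AB.Stm1
import Pool.Agent.T2h48.LZ.T_RING

/-!
# UPPER: an upper bound for the number of the points of a variety over finite fields
-/

set_option autoImplicit false

namespace Pool.Agent.T2h48.AB

open NumberField

/-- **UPPER** -/
theorem t_UPPER (hL : LZ.S_LANDAU) (hD : LZ.S_DROP) : S_UPPER := by
  intro A _ _ _ _ D hAD
  obtain ⟨L, _, _, d, hd, -, s, hs0, hs⟩ := hL A
  have hdD : d = D := by
    have := hd.symm.trans hAD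
    exact_mod_cast this
  subst hdD
  obtain ⟨C, N, hC0, hN0, h⟩ := hs s hs0 dvd_rfl
  obtain ⟨C', N', hN'0, h'⟩ := hD A d hAD s hs0
  refine ⟨Module.finrank ℤ (𝓞 L) + ⌈C⌉₊ + C', max N N', ?_⟩
  intro k _ _ hk
  obtain ⟨hNk, hNk'⟩ := max_lt_iff.1 hk
  have hcast : ∀ n : ℕ, n ≠ 0 → n < ringChar k → ((n : ℕ) : k) ≠ 0 := by
    intro n hn hlt h0
    rw [ringChar.spec] at h0
    exact absurd (Nat.le_of_dvd (Nat.pos_of_ne_zero hn) h0) (not_le.2 hlt)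
  have h1 := h k (hcast N hN0 hNk)
  have h2 := h' k (hcast N' hN'0 hNk')
  set q := Nat.card k with hq
  have hq1 : 1 ≤ q := Nat.card_pos
  have hq1' : (1 : ℝ) ≤ q := by exact_mod_cast hq1
  have hfin : Finite (A →+* k) := LZ.hom_finite A k
  have hsplit : Nat.card (A →+* k) =
      Nat.card {φ : A →+* k // φ s ≠ 0} + Nat.card {φ : A →+* k // φ s = 0} := by
    classical
    rw [← Nat.card_congr (Equiv.sumCompl fun φ : A →+* k => φ s ≠ 0), Nat.card_sum]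
    congr 1
    refine Nat.card_congr (Equiv.subtypeEquivRight fun φ => ?_)
    exact not_not
  have h3 : Nat.card {φ : A →+* k // φ s = 0} ≤ C' * q ^ d :=
    (Nat.le_mul_of_pos_right _ hq1).trans h2
  have h4 := (W385.CP.hom_int L k).2
  have hsq1 : 1 ≤ √(q : ℝ) := Real.one_le_sqrt.2 hq1'
  have hqd : (0 : ℝ) < (q : ℝ) ^ d := by positivity
  have h5 : (Nat.card {φ : A →+* k // φ s ≠ 0} : ℝ) ≤
      ((Module.finrank ℤ (𝓞 L) : ℝ) + ⌈C⌉₊) * (q : ℝ) ^ d := by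
    have h6 : |(Nat.card {φ : A →+* k // φ s ≠ 0} : ℝ) - Nat.card (𝓞 L →+* k) * (q : ℝ) ^ d| ≤
        C * (q : ℝ) ^ d :=
      (le_mul_of_one_le_right (abs_nonneg _) hsq1).trans h1
    have h7 := (abs_le.1 h6).2
    have h8 : C ≤ (⌈C⌉₊ : ℝ) := Nat.le_ceil _
    have h9 : (Nat.card (𝓞 L →+* k) : ℝ) ≤ Module.finrank ℤ (𝓞 L) := by exact_mod_cast h4
    nlinarith
  have h6 : Nat.card {φ : A →+* k // φ s ≠ 0} ≤ (Module.finrank ℤ (𝓞 L) + ⌈C⌉₊) * q ^ d := by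
    exact_mod_cast h5
  rw [hsplit]
  calc _ ≤ (Module.finrank ℤ (𝓞 L) + ⌈C⌉₊) * q ^ d + C' * q ^ d := Nat.add_le_add h6 h3
    _ = _ := by ring

end Pool.Agent.T2h48.AB
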