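import Pool.Agent.T2h48.AB.Stm1

/-!
# Project AB: Noetherian induction
-/

set_option autoImplicit false
set_option maxHeartbeats 1000000

namespace Pool.Agent.T2h48.AB

open Pool.Agent.T2h48.DW MvPolynomial
open scoped Classical

section defs
variable {n a : ℕ} (c : Fin 3 → Fin a → Fin n) (Φ : QF ℤ n)

/-- the points of the formula in the zero set of the ideal -/
def Pts (I : Ideal (MvPolynomial (Fin n) ℤ)) (k : Type) [Field k] : Set (Fin n → k) :=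
  {p | Φ.Holds p ∧ ∀ f ∈ I, aeval p f = 0}

/-- the three vertices -/
noncomputable def edge {k : Type} (p : Fin n → k) : Finset (Fin a → k) :=
  Finset.univ.image (fun j => p ∘ c j)

/-- the vertices that are covered by the edges -/
def Cov (k : Type) [Field k] : Set (Fin a → k) := {v | ∃ p j, Φ.Holds p ∧ v = p ∘ c j}

/-- no `m` edges span at most `m + 3` vertices -/
def Free (m : ℕ) (k : Type) [Field k] : Prop :=
  ∀ S : Finset (Finset (Fin a → k)), (∀ e ∈ S, ∃ p : Fin n → k, Φ.Holds p ∧ e = edge c p) →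
    S.card = m → m + 3 < (S.biUnion id).card

/-- the bound for the points in the zero set of `I` -/
def Claim (m : ℕ) (I : Ideal (MvPolynomial (Fin n) ℤ)) : Prop :=
  ∃ C N : ℕ, ∀ (k : Type) [Field k] [Finite k], N < ringChar k → Free c Φ m k →
    ((Pts Φ I k).ncard : ℝ) ≤ C * ((Cov c Φ k).ncard : ℝ) ^ (2 - 1 / (a : ℝ))

end defs

section basic
variable {n a : ℕ} {c : Fin 3 → Fin a → Fin n} {Φ : QF ℤ n} {m : ℕ}

theorem claim_or {I J : Ideal (MvPolynomial (Fin n) ℤ)} (C N : ℕ)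
    (h : ∀ (k : Type) [Field k] [Finite k], N < ringChar k → Free c Φ m k →
      ((Pts Φ I k).ncard : ℝ) ≤ C * ((Cov c Φ k).ncard : ℝ) ^ (2 - 1 / (a : ℝ)) ∨
        Pts Φ I k ⊆ Pts Φ J k) (hJ : Claim c Φ m J) : Claim c Φ m I := by
  obtain ⟨C', N', hJ⟩ := hJ
  refine ⟨C + C', N + N', fun k _ _ hk hf => ?_⟩
  have h0 : (0 : ℝ) ≤ ((Cov c Φ k).ncard : ℝ) ^ (2 - 1 / (a : ℝ)) := by positivity
  push_cast
  rw [add_mul]
  rcases h k (by omega) hf with h1 | h1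
  · have : (0 : ℝ) ≤ C' * ((Cov c Φ k).ncard : ℝ) ^ (2 - 1 / (a : ℝ)) := by positivity
    linarith
  · have h2 := hJ k (by omega) hf
    have h3 : ((Pts Φ I k).ncard : ℝ) ≤ (Pts Φ J k).ncard := by
      exact_mod_cast Set.ncard_le_ncard h1
    have : (0 : ℝ) ≤ C * ((Cov c Φ k).ncard : ℝ) ^ (2 - 1 / (a : ℝ)) := by positivity
    linarith

theorem claim_union {I J J' : Ideal (MvPolynomial (Fin n) ℤ)}
    (h : ∀ (k : Type) [Field k] [Finite k], Pts Φ I k ⊆ Pts Φ J k ∪ Pts Φ J' k)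
    (hJ : Claim c Φ m J) (hJ' : Claim c Φ m J') : Claim c Φ m I := by
  obtain ⟨C, N, hJ⟩ := hJ
  obtain ⟨C', N', hJ'⟩ := hJ'
  refine ⟨C + C', N + N', fun k _ _ hk hf => ?_⟩
  have h1 := hJ k (by omega) hf
  have h2 := hJ' k (by omega) hf
  have h3 : (Pts Φ I k).ncard ≤ (Pts Φ J k).ncard + (Pts Φ J' k).ncard :=
    (Set.ncard_le_ncard (h k)).trans (Set.ncard_union_le _ _)
  have h4 : ((Pts Φ I k).ncard : ℝ) ≤ (Pts Φ J k).ncard + (Pts Φ J' k).ncard := by exact_mod_cast h3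
  push_cast
  rw [add_mul]
  linarith

theorem sup_span {I : Ideal (MvPolynomial (Fin n) ℤ)} {s : MvPolynomial (Fin n) ℤ} {k : Type} [Field k]
    (x : Fin n → k) : (∀ g ∈ I ⊔ Ideal.span {s}, aeval x g = 0) ↔
      (∀ g ∈ I, aeval x g = 0) ∧ aeval x s = 0 := by
  constructor
  · intro h
    exact ⟨fun g hg => h g (Ideal.mem_sup_left hg),
      h s (Ideal.mem_sup_right (Ideal.mem_span_singleton_self s))⟩
  · rintro ⟨h1, h2⟩ g hg
    have h3 : I ⊔ Ideal.span {s} ≤ RingHom.ker (aeval x : MvPolynomial (Fin n) ℤ →ₐ[ℤ] k) := by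
      rw [sup_le_iff]
      refine ⟨fun y hy => h1 y hy, ?_⟩
      rw [Ideal.span_le, Set.singleton_subset_iff]
      exact h2
    exact h3 hg

/-- homomorphisms of `ℤ[x] / P` to `k` -/
theorem exists_pts {n : ℕ} (P : Ideal (MvPolynomial (Fin n) ℤ)) (k : Type) [Field k] :
    ∃ e : (MvPolynomial (Fin n) ℤ ⧸ P →+* k) ≃ {x : Fin n → k // ∀ f ∈ P, aeval x f = 0},
      (∀ φ f, aeval (e φ).1 f = φ (Ideal.Quotient.mk P f)) ∧
      ∀ φ i, (e φ).1 i = φ (Ideal.Quotient.mk P (X i)) := by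
  have e : ∀ (φ : MvPolynomial (Fin n) ℤ ⧸ P →+* k) (f : MvPolynomial (Fin n) ℤ),
      aeval (fun i => φ (Ideal.Quotient.mk P (X i))) f = φ (Ideal.Quotient.mk P f) := by
    intro φ f
    have h : ((aeval (fun i => φ (Ideal.Quotient.mk P (X i))) : MvPolynomial (Fin n) ℤ →ₐ[ℤ] k) :
        MvPolynomial (Fin n) ℤ →+* k) = φ.comp (Ideal.Quotient.mk P) := by
      apply MvPolynomial.ringHom_ext
      · intro r
        rw [RingHom.coe_coe, ← algebraMap_eq, AlgHom.commutes]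
        exact (RingHom.congr_fun (RingHom.ext_int (algebraMap ℤ k)
          ((φ.comp (Ideal.Quotient.mk P)).comp (algebraMap ℤ (MvPolynomial (Fin n) ℤ)))) r)
      · intro i
        exact aeval_X _ i
    exact RingHom.congr_fun h f
  let F : (MvPolynomial (Fin n) ℤ ⧸ P →+* k) → {x : Fin n → k // ∀ f ∈ P, aeval x f = 0} := fun φ =>
    ⟨fun i => φ (Ideal.Quotient.mk P (X i)), fun f hf => by
      rw [e, Ideal.Quotient.eq_zero_iff_mem.2 hf, map_zero]⟩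
  let G : {x : Fin n → k // ∀ f ∈ P, aeval x f = 0} → (MvPolynomial (Fin n) ℤ ⧸ P →+* k) := fun x =>
    Ideal.Quotient.lift P ((aeval x.1 : MvPolynomial (Fin n) ℤ →ₐ[ℤ] k) :
      MvPolynomial (Fin n) ℤ →+* k) x.2
  refine ⟨⟨F, G, ?_, ?_⟩, e, fun _ _ => rfl⟩
  · intro φ
    exact Ideal.Quotient.ringHom_ext (RingHom.ext fun f => e φ f)
  · intro x
    apply Subtype.ext
    funext i
    exact aeval_X x.1 i

theorem ft_quot {n : ℕ} (P : Ideal (MvPolynomial (Fin n) ℤ)) :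
    @Algebra.FiniteType ℤ (MvPolynomial (Fin n) ℤ ⧸ P) _ _ (Ring.toIntAlgebra _) := by
  have h : Algebra.FiniteType ℤ (MvPolynomial (Fin n) ℤ) := inferInstance
  have e : (Ideal.Quotient.mk P).comp (@algebraMap ℤ (MvPolynomial (Fin n) ℤ) _ _ AddMonoidAlgebra.algebra) =
      @algebraMap ℤ (MvPolynomial (Fin n) ℤ ⧸ P) _ _ (Ring.toIntAlgebra _) := RingHom.ext_int _ _
  let f : @AlgHom ℤ (MvPolynomial (Fin n) ℤ) (MvPolynomial (Fin n) ℤ ⧸ P) _ _ _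
      AddMonoidAlgebra.algebra (Ring.toIntAlgebra _) :=
    @AlgHom.mk ℤ (MvPolynomial (Fin n) ℤ) (MvPolynomial (Fin n) ℤ ⧸ P) _ _ _ AddMonoidAlgebra.algebra
      (Ring.toIntAlgebra _) (Ideal.Quotient.mk P) (fun r => RingHom.congr_fun e r)
  exact @Algebra.FiniteType.of_surjective ℤ (MvPolynomial (Fin n) ℤ) (MvPolynomial (Fin n) ℤ ⧸ P) _ _ _
    AddMonoidAlgebra.algebra (Ring.toIntAlgebra _) h f Ideal.Quotient.mk_surjective

end basic

/-- real exponents -/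
theorem rpow_bound {q D d C₁ C₂ N X a : ℕ} (hq : 1 ≤ q) (hd : D + 1 ≤ 2 * d) (hda : d ≤ a)
    (h1 : q ^ d ≤ C₁ * N) (h2 : X ≤ C₂ * q ^ D) :
    (X : ℝ) ≤ ((C₂ * C₁ ^ 2 : ℕ) : ℝ) * (N : ℝ) ^ (2 - 1 / (a : ℝ)) := by
  have hd1 : 1 ≤ d := by omega
  have hq0 : 0 < q ^ d := by positivity
  have hCN : 1 ≤ C₁ * N := by omega
  have hC : 1 ≤ C₁ := Nat.pos_of_ne_zero (by rintro rfl; simp at hCN)
  have hN : 1 ≤ N := Nat.pos_of_ne_zero (by rintro rfl; simp at hCN)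
  have hqr : (1 : ℝ) ≤ q := by exact_mod_cast hq
  have hCr : (1 : ℝ) ≤ C₁ := by exact_mod_cast hC
  have hNr : (1 : ℝ) ≤ N := by exact_mod_cast hN
  have hdr : (1 : ℝ) ≤ d := by exact_mod_cast hd1
  have har : (d : ℝ) ≤ a := by exact_mod_cast hda
  have e1 : (q : ℝ) ^ D ≤ (q : ℝ) ^ (2 * d - 1) := pow_le_pow_right₀ hqr (by omega)
  have e2 : (q : ℝ) ^ (2 * d - 1) = ((q : ℝ) ^ d) ^ (2 - 1 / (d : ℝ)) := by
    rw [← Real.rpow_natCast, ← Real.rpow_natCast, ← Real.rpow_mul (by linarith)]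
    congr 1
    rw [Nat.cast_sub (by omega)]
    push_cast
    field_simp
  have hexp : (0 : ℝ) ≤ 2 - 1 / (d : ℝ) := by
    have : 1 / (d : ℝ) ≤ 1 := by
      rw [div_le_one (by linarith)]
      exact hdr
    linarith
  have e3 : ((q : ℝ) ^ d) ^ (2 - 1 / (d : ℝ)) ≤ ((C₁ : ℝ) * N) ^ (2 - 1 / (d : ℝ)) := by
    apply Real.rpow_le_rpow (by positivity) _ hexp
    exact_mod_cast h1
  have e4 : ((C₁ : ℝ) * N) ^ (2 - 1 / (d : ℝ)) = (C₁ : ℝ) ^ (2 - 1 / (d : ℝ)) * (N : ℝ) ^ (2 - 1 / (d : ℝ)) :=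
    Real.mul_rpow (by linarith) (by linarith)
  have e5 : (C₁ : ℝ) ^ (2 - 1 / (d : ℝ)) ≤ (C₁ : ℝ) ^ 2 := by
    rw [← Real.rpow_natCast (C₁ : ℝ) 2]
    apply Real.rpow_le_rpow_of_exponent_le hCr
    have : (0 : ℝ) < 1 / (d : ℝ) := by positivity
    push_cast
    linarith
  have e6 : (N : ℝ) ^ (2 - 1 / (d : ℝ)) ≤ (N : ℝ) ^ (2 - 1 / (a : ℝ)) := by
    apply Real.rpow_le_rpow_of_exponent_le hNr
    have : 1 / (a : ℝ) ≤ 1 / (d : ℝ) := one_div_le_one_div_of_le (by linarith) har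
    linarith
  have e7 : (X : ℝ) ≤ C₂ * (q : ℝ) ^ D := by exact_mod_cast h2
  calc (X : ℝ) ≤ C₂ * (q : ℝ) ^ D := e7
    _ ≤ C₂ * (((C₁ : ℝ) ^ 2) * (N : ℝ) ^ (2 - 1 / (a : ℝ))) := by
        refine mul_le_mul_of_nonneg_left ?_ (Nat.cast_nonneg _)
        refine e1.trans ?_
        rw [e2]
        refine e3.trans ?_
        rw [e4]
        exact mul_le_mul e5 e6 (by positivity) (by positivity)
    _ = ((C₂ * C₁ ^ 2 : ℕ) : ℝ) * (N : ℝ) ^ (2 - 1 / (a : ℝ)) := by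
        push_cast
        ring

end Pool.Agent.T2h48.AB
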