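import Pool.Agent.T2h48.AB.Ind

/-!
# Project AB: the prime case
-/

set_option autoImplicit false
set_option maxHeartbeats 1000000

namespace Pool.Agent.T2h48.AB

open Pool.Agent.T2h48.DW MvPolynomial
open scoped Classical

/-- `aeval` at the values of a homomorphism -/
theorem aeval_hom {n : ℕ} (P : Ideal (MvPolynomial (Fin n) ℤ)) {R : Type} [CommRing R]
    (g : MvPolynomial (Fin n) ℤ ⧸ P →+* R) (f : MvPolynomial (Fin n) ℤ) :
    aeval (fun i => g (Ideal.Quotient.mk P (X i))) f = g (Ideal.Quotient.mk P f) := by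
  have h : ((aeval (fun i => g (Ideal.Quotient.mk P (X i))) : MvPolynomial (Fin n) ℤ →ₐ[ℤ] R) :
      MvPolynomial (Fin n) ℤ →+* R) = g.comp (Ideal.Quotient.mk P) := by
    apply MvPolynomial.ringHom_ext
    · intro r
      rw [RingHom.coe_coe, ← algebraMap_eq, AlgHom.commutes]
      exact (RingHom.congr_fun (RingHom.ext_int (algebraMap ℤ R)
        ((g.comp (Ideal.Quotient.mk P)).comp (algebraMap ℤ (MvPolynomial (Fin n) ℤ)))) r)
    · intro i
      exact aeval_X _ i
  exact RingHom.congr_fun h f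

/-- the case in which there are configurations near the generic edge -/
theorem conf_case (hCONF : S_CONF) (hPOINTS : S_POINTS) {n a : ℕ} {c : Fin 3 → Fin a → Fin n}
    (hc : ∀ l : Fin n, ∃ j i, c j i = l) {Φ : QF ℤ n}
    (hΦ : ∀ (k : Type) [Field k] (p : Fin n → k), Φ.Holds p → ∀ j j' : Fin 3, j ≠ j' →
      p ∘ c j ≠ p ∘ c j') {m : ℕ} (hm : 1 ≤ m)
    (P : Ideal (MvPolynomial (Fin n) ℤ)) [P.IsPrime] [CharZero (MvPolynomial (Fin n) ℤ ⧸ P)]
    (s₀ : MvPolynomial (Fin n) ℤ) (hs₀ : s₀ ∉ P)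
    (hs₀' : ∀ (k : Type) [Field k] (x : Fin n → k), (∀ f ∈ P, MvPolynomial.aeval x f = 0) →
      MvPolynomial.aeval x s₀ ≠ 0 → Φ.Holds x) (D : ℕ)
    (M : Type) [Field M] [CharZero M] [Algebra (MvPolynomial (Fin n) ℤ ⧸ P) M]
    [IsFractionRing (MvPolynomial (Fin n) ℤ ⧸ P) M]
    (hD : Algebra.trdeg ℚ M = D) (hD1 : 1 ≤ D)
    (hd : ∀ j, 2 * Algebra.trdeg ℚ (IntermediateField.adjoin ℚ (Set.range fun i =>
      algebraMap (MvPolynomial (Fin n) ℤ ⧸ P) M (Ideal.Quotient.mk P (X (c j i))))) ≤ D) :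
    ∃ (s : MvPolynomial (Fin n) ℤ) (N : ℕ), s ∉ P ∧ ∀ (k : Type) [Field k] [Finite k],
      N < ringChar k → Free c Φ m k → Pts Φ P k ⊆ Pts Φ (P ⊔ Ideal.span {s}) k := by
  set A := MvPolynomial (Fin n) ℤ ⧸ P with hA
  have hFT : @Algebra.FiniteType ℤ A _ _ (Ring.toIntAlgebra A) := ft_quot P
  set w : Fin 3 → Fin a → M := fun j i => algebraMap A M (Ideal.Quotient.mk P (X (c j i))) with hw
  -- the generators
  let x : Fin n → A := fun l => Ideal.Quotient.mk P (X l)
  have hwx : ∀ j i, w j i = algebraMap A M (x (c j i)) := fun j i => rfl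
  -- every subring that contains the coordinates contains `A`
  have hgen : ∀ (R : Subring M), (∀ l, algebraMap A M (x l) ∈ R) → ∀ y : A, algebraMap A M y ∈ R := by
    intro R hR y
    obtain ⟨f, rfl⟩ := Ideal.Quotient.mk_surjective y
    induction f using MvPolynomial.induction_on with
    | C r =>
      have : Ideal.Quotient.mk P (C r) = ((r : ℤ) : A) := by
        rw [← eq_intCast ((Ideal.Quotient.mk P).comp C) r]
        rfl
      rw [this, map_intCast]
      exact intCast_mem R r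
    | add f g hf hg => rw [map_add, map_add]; exact R.add_mem hf hg
    | mul_X f l hf => rw [map_mul, map_mul]; exact R.mul_mem hf (hR l)
  have halg : Algebra.IsAlgebraic
      (IntermediateField.adjoin ℚ (Set.range fun p : Fin 3 × Fin a => w p.1 p.2)) M := by
    constructor
    intro y
    have h1 : ∀ y : A, algebraMap A M y ∈
        (IntermediateField.adjoin ℚ (Set.range fun p : Fin 3 × Fin a => w p.1 p.2)).toSubfield.toSubring := by
      apply hgen
      intro l
      obtain ⟨j, i, rfl⟩ := hc l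
      exact IntermediateField.subset_adjoin ℚ _ ⟨(j, i), rfl⟩
    obtain ⟨u, v, hv, rfl⟩ := IsFractionRing.div_surjective (A := A) y
    have h2 : algebraMap A M u / algebraMap A M v ∈
        IntermediateField.adjoin ℚ (Set.range fun p : Fin 3 × Fin a => w p.1 p.2) :=
      div_mem (h1 u) (h1 v)
    exact isAlgebraic_algebraMap (⟨_, h2⟩ :
      IntermediateField.adjoin ℚ (Set.range fun p : Fin 3 × Fin a => w p.1 p.2))
  obtain ⟨T, hTm, hTl, hTs⟩ := hCONF M a D w halg hD hD1 hd m hm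
  -- the ring
  let G : Finset (PowerSeries M) := (T ×ˢ (Finset.univ : Finset (Fin n))).image
    fun z => z.1 (algebraMap A M (x z.2))
  let B : Subalgebra ℤ (PowerSeries M) := Algebra.adjoin ℤ (G : Set (PowerSeries M))
  have hB : B.FG := ⟨G, rfl⟩
  have hmemB : ∀ φ ∈ T, ∀ y : A, φ (algebraMap A M y) ∈ B := by
    intro φ hφ y
    obtain ⟨f, rfl⟩ := Ideal.Quotient.mk_surjective y
    induction f using MvPolynomial.induction_on with
    | C r =>
      have : Ideal.Quotient.mk P (C r) = ((r : ℤ) : A) := by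
        rw [← eq_intCast ((Ideal.Quotient.mk P).comp C) r]
        rfl
      rw [this, map_intCast, map_intCast]
      exact intCast_mem B r
    | add f g hf hg => rw [map_add, map_add, map_add]; exact B.add_mem hf hg
    | mul_X f l hf =>
      rw [map_mul, map_mul, map_mul]
      refine B.mul_mem hf (Algebra.subset_adjoin ?_)
      rw [Finset.mem_coe, Finset.mem_image]
      exact ⟨(φ, l), by simp [hφ], rfl⟩
  -- the homomorphisms `A → B`
  let g : ∀ φ : {φ // φ ∈ T}, A →+* B := fun φ =>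
    (φ.1.comp (algebraMap A M)).codRestrict B.toSubring fun y => hmemB φ.1 φ.2 y
  have hg : ∀ φ y, ((g φ y : B) : PowerSeries M) = φ.1 (algebraMap A M y) := fun _ _ => rfl
  have hgc : ∀ φ y, PowerSeries.constantCoeff ((g φ y : B) : PowerSeries M) = algebraMap A M y :=
    fun φ y => hTl φ.1 φ.2 _
  -- the element `t`
  let Z := {φ // φ ∈ T} × {φ // φ ∈ T} × (Fin 3 × Fin 3) × Fin a
  let df : Z → B := fun z => g z.1 (x (c z.2.2.1.1 z.2.2.2)) - g z.2.1 (x (c z.2.2.1.2 z.2.2.2))
  let t : B := (∏ z : Z, if df z = 0 then 1 else df z) * ∏ φ : {φ // φ ∈ T}, g φ (Ideal.Quotient.mk P s₀)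
  have ht : t ≠ 0 := by
    refine mul_ne_zero ?_ ?_
    · rw [Finset.prod_ne_zero_iff]
      intro z _
      split_ifs with h
      · exact one_ne_zero
      · exact h
    · rw [Finset.prod_ne_zero_iff]
      intro φ _ h
      have h1 := hgc φ (Ideal.Quotient.mk P s₀)
      rw [h] at h1
      simp only [ZeroMemClass.coe_zero, map_zero] at h1
      have h2 : Ideal.Quotient.mk P s₀ = 0 := by
        apply IsFractionRing.injective A M
        rw [← h1, map_zero]
      exact hs₀ (Ideal.Quotient.eq_zero_iff_mem.1 h2)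
  obtain ⟨s, N, hs, hN⟩ := hPOINTS A M B hB t ht
  obtain ⟨s, rfl⟩ := Ideal.Quotient.mk_surjective s
  refine ⟨s, N, ?_, ?_⟩
  · rwa [ne_eq, Ideal.Quotient.eq_zero_iff_mem] at hs
  intro k _ _ hk hfree p hp
  refine ⟨hp.1, ?_⟩
  rw [sup_span]
  refine ⟨hp.2, ?_⟩
  by_contra hps
  obtain ⟨e, he, -⟩ := exists_pts P k
  obtain ⟨χ, hχ⟩ := hN k hk ⟨e.symm ⟨p, hp.2⟩, by
    rw [← he, Equiv.apply_symm_apply]
    exact hps⟩
  -- the points
  let q : {φ // φ ∈ T} → (Fin n → k) := fun φ l => χ (g φ (x l))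
  have hq : ∀ φ (f : MvPolynomial (Fin n) ℤ), aeval (q φ) f = χ (g φ (Ideal.Quotient.mk P f)) :=
    fun φ f => aeval_hom P (χ.comp (g φ)) f
  have hχ1 : ∀ z : Z, df z ≠ 0 → χ (df z) ≠ 0 := by
    intro z hz h
    apply hχ
    rw [map_mul, map_prod]
    rw [Finset.prod_eq_zero (Finset.mem_univ z), zero_mul]
    rw [if_neg hz, h]
  have hχ2 : ∀ φ : {φ // φ ∈ T}, χ (g φ (Ideal.Quotient.mk P s₀)) ≠ 0 := by
    intro φ h
    apply hχ
    rw [map_mul, map_prod _ _ (Finset.univ : Finset {φ // φ ∈ T})]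
    rw [Finset.prod_eq_zero (Finset.mem_univ φ) h, mul_zero]
  have hqΦ : ∀ φ, Φ.Holds (q φ) := by
    intro φ
    refine hs₀' k (q φ) ?_ ?_
    · intro f hf
      rw [hq, Ideal.Quotient.eq_zero_iff_mem.2 hf, map_zero, map_zero]
    · rw [hq]
      exact hχ2 φ
  -- the generic edge has distinct vertices
  have hgenΦ : Φ.Holds (fun l => algebraMap A M (x l)) := by
    refine hs₀' M _ ?_ ?_
    · intro f hf
      rw [show (fun l => algebraMap A M (x l)) = fun i => algebraMap A M (Ideal.Quotient.mk P (X i)) from rfl,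
        aeval_hom P (algebraMap A M) f, Ideal.Quotient.eq_zero_iff_mem.2 hf, map_zero]
    · rw [show (fun l => algebraMap A M (x l)) = fun i => algebraMap A M (Ideal.Quotient.mk P (X i)) from rfl,
        aeval_hom P (algebraMap A M) s₀]
      intro h
      apply hs₀
      rw [← Ideal.Quotient.eq_zero_iff_mem]
      apply IsFractionRing.injective A M
      rw [h, map_zero]
  -- equal vertices
  have hvert : ∀ (φ φ' : {φ // φ ∈ T}) (j j' : Fin 3), q φ ∘ c j = q φ' ∘ c j' →
      j = j' ∧ ∀ i, φ.1 (w j i) = φ'.1 (w j' i) := by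
    intro φ φ' j j' h
    have h1 : ∀ i, g φ (x (c j i)) = g φ' (x (c j' i)) := by
      intro i
      by_contra h2
      have h3 := hχ1 (φ, φ', (j, j'), i) (sub_ne_zero.2 h2)
      apply h3
      rw [map_sub]
      exact sub_eq_zero.2 (congrFun h i)
    have h2 : ∀ i, φ.1 (w j i) = φ'.1 (w j' i) := by
      intro i
      have := congrArg (fun b : B => (b : PowerSeries M)) (h1 i)
      exact this
    refine ⟨?_, h2⟩
    by_contra hjj
    refine hΦ M _ hgenΦ j j' hjj ?_
    funext i
    have := congrArg (fun b : B => PowerSeries.constantCoeff (b : PowerSeries M)) (h1 i)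
    simp only [hgc] at this
    exact this
  -- distinct edges
  have hinj : Function.Injective fun φ : {φ // φ ∈ T} => edge c (q φ) := by
    intro φ φ' h
    have h1 : ∀ j, q φ ∘ c j = q φ' ∘ c j := by
      intro j
      have h2 : q φ ∘ c j ∈ edge c (q φ') := by
        have h3 : q φ ∘ c j ∈ edge c (q φ) := Finset.mem_image_of_mem _ (Finset.mem_univ j)
        have h4 : edge c (q φ) = edge c (q φ') := h
        rwa [h4] at h3
      obtain ⟨j', -, hj'⟩ := Finset.mem_image.1 h2
      obtain ⟨rfl, -⟩ := hvert φ φ' j j' hj'.symm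
      exact hj'.symm
    have h2 : ∀ l, φ.1 (algebraMap A M (x l)) = φ'.1 (algebraMap A M (x l)) := by
      intro l
      obtain ⟨j, i, rfl⟩ := hc l
      exact (hvert φ φ' j j (h1 j)).2 i
    have h3 : φ.1 = φ'.1 := by
      refine IsLocalization.ringHom_ext (nonZeroDivisors A) ?_
      refine Ideal.Quotient.ringHom_ext ?_
      apply MvPolynomial.ringHom_ext
      · intro r
        exact RingHom.congr_fun (RingHom.ext_int
          ((((φ.1.comp (algebraMap A M)).comp (Ideal.Quotient.mk P))).comp C)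
          ((((φ'.1.comp (algebraMap A M)).comp (Ideal.Quotient.mk P))).comp C)) r
      · intro l
        exact h2 l
    exact Subtype.ext h3
  -- the configuration
  let S : Finset (Finset (Fin a → k)) := Finset.univ.image fun φ : {φ // φ ∈ T} => edge c (q φ)
  have hScard : S.card = m := by
    rw [Finset.card_image_of_injective _ hinj, Finset.card_univ, Fintype.card_coe, hTm]
  have h1 := hfree S (by
    intro e he
    obtain ⟨φ, -, rfl⟩ := Finset.mem_image.1 he
    exact ⟨q φ, hqΦ φ, rfl⟩) hScard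
  -- the number of the vertices
  have h2 : (S.biUnion id).card ≤ ∑ j : Fin 3, ((fun (φ : M →+* PowerSeries M) (i : Fin a) => φ (w j i)) ''
        (T : Set (M →+* PowerSeries M))).ncard := by
    have h3 : S.biUnion id ⊆ (Finset.univ : Finset (Fin 3)).biUnion fun j =>
        (Finset.univ : Finset {φ // φ ∈ T}).image fun φ => q φ ∘ c j := by
      intro v hv
      obtain ⟨e, he, hv⟩ := Finset.mem_biUnion.1 hv
      obtain ⟨φ, -, rfl⟩ := Finset.mem_image.1 he
      obtain ⟨j, -, rfl⟩ := Finset.mem_image.1 hv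
      exact Finset.mem_biUnion.2 ⟨j, Finset.mem_univ j, Finset.mem_image_of_mem _ (Finset.mem_univ φ)⟩
    refine (Finset.card_le_card h3).trans (Finset.card_biUnion_le.trans ?_)
    refine Finset.sum_le_sum fun j _ => ?_
    have h4 : ((fun (φ : M →+* PowerSeries M) (i : Fin a) => φ (w j i)) ''
        (T : Set (M →+* PowerSeries M))) =
        (((Finset.univ : Finset {φ // φ ∈ T}).image fun φ => fun i => φ.1 (w j i) :
          Finset (Fin a → PowerSeries M)) : Set (Fin a → PowerSeries M)) := by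
      ext v
      simp
    rw [h4, Set.ncard_coe_finset]
    have h5 : ((Finset.univ : Finset {φ // φ ∈ T}).image fun φ => q φ ∘ c j) ⊆
        ((Finset.univ : Finset {φ // φ ∈ T}).image fun φ => fun i => φ.1 (w j i)).image
          fun v => fun i => if h : v i ∈ B then χ ⟨v i, h⟩ else 0 := by
      intro v hv
      obtain ⟨φ, -, rfl⟩ := Finset.mem_image.1 hv
      rw [Finset.mem_image]
      refine ⟨_, Finset.mem_image_of_mem _ (Finset.mem_univ φ), ?_⟩
      funext i
      have h6 : φ.1 (w j i) ∈ B := hmemB φ.1 φ.2 _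
      rw [dif_pos h6]
      rfl
    exact (Finset.card_le_card h5).trans Finset.card_image_le
  omega

open IntermediateField in
open scoped IntermediateField.algebraAdjoinAdjoin in
theorem trdeg_adjoin_le {M : Type} [Field M] [CharZero M] {a : ℕ} (v : Fin a → M) :
    Algebra.trdeg ℚ (IntermediateField.adjoin ℚ (Set.range v)) ≤ a := by
  have h1 : Algebra.trdeg ℚ (Algebra.adjoin ℚ (Set.range v)) ≤ a := by
    have h : Algebra.adjoin ℚ (Set.range v) = (MvPolynomial.aeval v : MvPolynomial (Fin a) ℚ →ₐ[ℚ] M).range :=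
      Algebra.adjoin_range_eq_range_aeval ℚ v
    rw [h]
    have := trdeg_le_of_surjective _ (MvPolynomial.aeval v : MvPolynomial (Fin a) ℚ →ₐ[ℚ] M).rangeRestrict_surjective
    refine this.trans ?_
    rw [MvPolynomial.trdeg_of_isDomain]
    simp
  have h4 : FaithfulSMul ℚ (Algebra.adjoin ℚ (Set.range v)) :=
    (faithfulSMul_iff_algebraMap_injective _ _).2 (RingHom.injective _)
  have h2 : Algebra.trdeg ℚ (Algebra.adjoin ℚ (Set.range v)) + Algebra.trdeg (Algebra.adjoin ℚ (Set.range v))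
      (IntermediateField.adjoin ℚ (Set.range v)) = Algebra.trdeg ℚ (IntermediateField.adjoin ℚ (Set.range v)) :=
    trdeg_add_eq _ _
  rw [← h2]
  have h3 : Algebra.IsAlgebraic (Algebra.adjoin ℚ (Set.range v))
      (IntermediateField.adjoin ℚ (Set.range v)) := inferInstance
  rw [trdeg_eq_zero (R := Algebra.adjoin ℚ (Set.range v)), add_zero]
  exact h1

theorem pts_finite {n : ℕ} (Φ : QF ℤ n) (P : Ideal (MvPolynomial (Fin n) ℤ)) (k : Type) [Field k]
    [Finite k] : (Pts Φ P k).Finite := Set.toFinite _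

/-- the number of the points is at most the number of the homomorphisms -/
theorem pts_le {n : ℕ} (Φ : QF ℤ n) (P : Ideal (MvPolynomial (Fin n) ℤ)) (k : Type) [Field k]
    [Finite k] : (Pts Φ P k).ncard ≤ Nat.card (MvPolynomial (Fin n) ℤ ⧸ P →+* k) := by
  obtain ⟨e, -, -⟩ := exists_pts P k
  have h1 : Nat.card (MvPolynomial (Fin n) ℤ ⧸ P →+* k) =
      Set.ncard {x : Fin n → k | ∀ f ∈ P, aeval x f = 0} := Nat.card_congr e
  rw [h1]
  exact Set.ncard_le_ncard fun x hx => hx.2

/-- the prime case -/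
theorem prime_case (hL : LZ.S_LANDAU) (hCONF : S_CONF) (hGEN : S_GEN) (hPOINTS : S_POINTS) (hUPPER : S_UPPER)
    (hLOWER : S_LOWER) {n a : ℕ} {c : Fin 3 → Fin a → Fin n}
    (hc : ∀ l : Fin n, ∃ j i, c j i = l) {Φ : QF ℤ n}
    (hΦ : ∀ (k : Type) [Field k] (p : Fin n → k), Φ.Holds p → ∀ j j' : Fin 3, j ≠ j' →
      p ∘ c j ≠ p ∘ c j') {m : ℕ} (hm : 1 ≤ m)
    (P : Ideal (MvPolynomial (Fin n) ℤ)) (hP : P.IsPrime)
    (ih : ∀ s, s ∉ P → Claim c Φ m (P ⊔ Ideal.span {s})) : Claim c Φ m P := by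
  set A := MvPolynomial (Fin n) ℤ ⧸ P with hA
  have hFT : @Algebra.FiniteType ℤ A _ _ (Ring.toIntAlgebra A) := ft_quot P
  by_cases hchar : ∃ p : ℕ, p ≠ 0 ∧ ((p : ℕ) : A) = 0
  · obtain ⟨p, hp0, hpz⟩ := hchar
    refine ⟨0, p, fun k _ _ hk _ => ?_⟩
    have h1 : Pts Φ P k = ∅ := by
      rw [Set.eq_empty_iff_forall_notMem]
      intro x hx
      have h3 : ((p : ℕ) : MvPolynomial (Fin n) ℤ) ∈ P := by
        rw [← Ideal.Quotient.eq_zero_iff_mem, map_natCast]
        exact hpz
      have h4 := hx.2 _ h3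
      rw [map_natCast] at h4
      have h5 := Nat.le_of_dvd (Nat.pos_of_ne_zero hp0) ((ringChar.spec k p).1 h4)
      omega
    rw [h1]
    simp
  push Not at hchar
  have hcz : CharZero A := by
    refine charZero_of_inj_zero ?_
    intro r hr
    by_contra h
    exact hchar r h hr
  obtain ⟨s₀, hs₀, hgen⟩ := hGEN n Φ P hP
  rcases hgen with hgen | hgen
  swap
  · refine claim_or 0 0 (fun k _ _ _ _ => Or.inr ?_) (ih s₀ hs₀)
    intro x hx
    refine ⟨hx.1, ?_⟩
    rw [sup_span]
    refine ⟨hx.2, ?_⟩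
    by_contra h
    exact hgen k x hx.2 h hx.1
  have hczM : CharZero (FractionRing A) := inferInstance
  obtain ⟨D, hD⟩ : ∃ D : ℕ, Algebra.trdeg ℚ (FractionRing A) = D := by
    obtain ⟨-, -, -, D, hD, -⟩ := hL A
    exact ⟨D, hD⟩
  obtain ⟨C₂, N₂, hup⟩ := hUPPER A D hD
  rcases Nat.eq_zero_or_pos D with hD0 | hD1
  · -- dimension zero
    subst hD0
    refine ⟨C₂, N₂, fun k _ _ hk _ => ?_⟩
    have h1 := (pts_le Φ P k).trans (hup k hk)
    rw [pow_zero, mul_one] at h1
    by_cases h2 : (Pts Φ P k).Nonempty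
    · obtain ⟨x, hx⟩ := h2
      have h3 : 1 ≤ (Cov c Φ k).ncard := by
        rw [Nat.one_le_iff_ne_zero, ← Nat.pos_iff_ne_zero, Set.ncard_pos]
        exact ⟨x ∘ c 0, x, 0, hx.1, rfl⟩
      have h4 : (1 : ℝ) ≤ ((Cov c Φ k).ncard : ℝ) := by exact_mod_cast h3
      have h5 : (1 : ℝ) ≤ ((Cov c Φ k).ncard : ℝ) ^ (2 - 1 / (a : ℝ)) := by
        apply Real.one_le_rpow h4
        rcases Nat.eq_zero_or_pos a with ha | ha
        · subst ha
          norm_num
        · have : 1 / (a : ℝ) ≤ 1 := by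
            rw [div_le_one (by exact_mod_cast ha)]
            exact_mod_cast ha
          linarith
      have h6 : ((Pts Φ P k).ncard : ℝ) ≤ C₂ := by exact_mod_cast h1
      calc ((Pts Φ P k).ncard : ℝ) ≤ C₂ := h6
        _ = C₂ * 1 := (mul_one _).symm
        _ ≤ _ := mul_le_mul_of_nonneg_left h5 (Nat.cast_nonneg _)
    · rw [Set.not_nonempty_iff_eq_empty.1 h2]
      simp only [Set.ncard_empty, Nat.cast_zero]
      positivity
  by_cases hd : ∀ j, 2 * Algebra.trdeg ℚ (IntermediateField.adjoin ℚ (Set.range fun i =>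
      algebraMap (MvPolynomial (Fin n) ℤ ⧸ P) (FractionRing A) (Ideal.Quotient.mk P (X (c j i))))) ≤ D
  · obtain ⟨s, N, hs, hN⟩ := conf_case hCONF hPOINTS hc hΦ hm P s₀ hs₀ hgen D (FractionRing A) hD hD1 hd
    exact claim_or 0 N (fun k _ _ hk hf => Or.inr (hN k hk hf)) (ih s hs)
  · push Not at hd
    obtain ⟨j, hj⟩ := hd
    obtain ⟨d, hdj⟩ := Cardinal.lt_aleph0.1
      ((trdeg_adjoin_le fun i => algebraMap A (FractionRing A) (Ideal.Quotient.mk P (X (c j i)))).trans_lt
        (Cardinal.natCast_lt_aleph0))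
    have hda : d ≤ a := by
      have := trdeg_adjoin_le fun i => algebraMap A (FractionRing A) (Ideal.Quotient.mk P (X (c j i)))
      rw [hdj] at this
      exact_mod_cast this
    have hDd : D < 2 * d := by
      have h1 := hj
      rw [hdj] at h1
      exact_mod_cast h1
    obtain ⟨C₁, N₁, s, hs, hlow⟩ := hLOWER A (FractionRing A) a d
      (fun i => Ideal.Quotient.mk P (X (c j i))) hdj (Ideal.Quotient.mk P s₀)
      (by rwa [ne_eq, Ideal.Quotient.eq_zero_iff_mem])
    obtain ⟨s, rfl⟩ := Ideal.Quotient.mk_surjective s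
    have hs' : s ∉ P := by rwa [ne_eq, Ideal.Quotient.eq_zero_iff_mem] at hs
    refine claim_or (C₂ * C₁ ^ 2) (N₁ + N₂) (fun k _ _ hk hf => ?_) (ih s hs')
    obtain ⟨e, he, he'⟩ := exists_pts P k
    by_cases h : ∃ x : Fin n → k, (∀ f ∈ P, aeval x f = 0) ∧ aeval x s ≠ 0
    · left
      obtain ⟨x, hx, hxs⟩ := h
      have h1 := hlow k (by omega) ⟨e.symm ⟨x, hx⟩, by
        rw [← he, Equiv.apply_symm_apply]
        exact hxs⟩
      have h2 : (Set.range fun (ψ : {ψ : A →+* k // ψ (Ideal.Quotient.mk P s₀) ≠ 0}) (i : Fin a) =>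
          ψ.1 (Ideal.Quotient.mk P (X (c j i)))).ncard ≤ (Cov c Φ k).ncard := by
        refine Set.ncard_le_ncard ?_ (Set.toFinite _)
        rintro _ ⟨ψ, rfl⟩
        refine ⟨(e ψ.1).1, j, hgen k _ (e ψ.1).2 ?_, ?_⟩
        · rw [he]
          exact ψ.2
        · funext i
          exact (he' ψ.1 (c j i)).symm
      have h3 : Nat.card k ^ d ≤ C₁ * (Cov c Φ k).ncard := h1.trans (Nat.mul_le_mul_left _ h2)
      exact rpow_bound Nat.card_pos (by omega) hda h3 ((pts_le Φ P k).trans (hup k (by omega)))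
    · right
      push Not at h
      intro x hx
      refine ⟨hx.1, ?_⟩
      rw [sup_span]
      exact ⟨hx.2, h x hx.2⟩

end Pool.Agent.T2h48.AB
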