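import Pool.Agent.T2h48.AB.Ind2

/-!
# Project AB: the Noetherian induction and the final theorem
-/

set_option autoImplicit false
set_option maxHeartbeats 1000000

namespace Pool.Agent.T2h48.AB

open Pool.Agent.T2h48.DW MvPolynomial
open scoped Classical

theorem claim_all (hL : LZ.S_LANDAU) (hCONF : S_CONF) (hGEN : S_GEN) (hPOINTS : S_POINTS)
    (hUPPER : S_UPPER) (hLOWER : S_LOWER) {n a : ℕ} {c : Fin 3 → Fin a → Fin n}
    (hc : ∀ l : Fin n, ∃ j i, c j i = l) {Φ : QF ℤ n}
    (hΦ : ∀ (k : Type) [Field k] (p : Fin n → k), Φ.Holds p → ∀ j j' : Fin 3, j ≠ j' →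
      p ∘ c j ≠ p ∘ c j') {m : ℕ} (hm : 1 ≤ m) (I : Ideal (MvPolynomial (Fin n) ℤ)) :
    Claim c Φ m I := by
  have hN : IsNoetherianRing (MvPolynomial (Fin n) ℤ) := inferInstance
  have hwf : WellFoundedGT (Ideal (MvPolynomial (Fin n) ℤ)) := inferInstance
  induction I using WellFoundedGT.induction with
  | ind I ih =>
  have key : ∀ s, s ∉ I → Claim c Φ m (I ⊔ Ideal.span {s}) := by
    intro s hs
    refine ih _ ?_
    rw [lt_iff_le_and_ne]
    refine ⟨le_sup_left, ?_⟩
    intro h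
    apply hs
    rw [h]
    exact Ideal.mem_sup_right (Ideal.mem_span_singleton_self s)
  by_cases htop : I = ⊤
  · refine ⟨0, 0, fun k _ _ _ _ => ?_⟩
    have h1 : Pts Φ I k = ∅ := by
      rw [Set.eq_empty_iff_forall_notMem]
      intro x hx
      have := hx.2 1 (by rw [htop]; trivial)
      rw [map_one] at this
      exact one_ne_zero this
    rw [h1]
    simp
  by_cases hp : I.IsPrime
  · exact prime_case hL hCONF hGEN hPOINTS hUPPER hLOWER hc hΦ hm I hp key
  · have h1 : ∃ f g : MvPolynomial (Fin n) ℤ, f ∉ I ∧ g ∉ I ∧ f * g ∈ I := by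
      by_contra h
      push Not at h
      apply hp
      refine ⟨htop, ?_⟩
      intro x y hxy
      by_contra h5
      rw [not_or] at h5
      exact h x y h5.1 h5.2 hxy
    obtain ⟨f, g, hf, hg, hfg⟩ := h1
    refine claim_union (fun k _ _ => ?_) (key f hf) (key g hg)
    intro x hx
    have h2 := hx.2 _ hfg
    rw [map_mul, mul_eq_zero] at h2
    rcases h2 with h2 | h2
    · left
      refine ⟨hx.1, ?_⟩
      rw [sup_span]
      exact ⟨hx.2, h2⟩
    · right
      refine ⟨hx.1, ?_⟩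
      rw [sup_span]
      exact ⟨hx.2, h2⟩

/-- The 3-graph of the formula `E` on the vertex set `k ^ a`: the edges are the sets `{x, y, z}` of three
distinct points of `k ^ a` such that `E` is true at `(x, y, z)`. -/
def triples {a : ℕ} (E : QF ℤ (a + a + a)) (k : Type) [Field k] : Set (Finset (Fin a → k)) :=
  {e | ∃ x y z : Fin a → k, x ≠ y ∧ x ≠ z ∧ y ≠ z ∧ (e : Set (Fin a → k)) = {x, y, z} ∧
    E.Holds (Fin.append (Fin.append x y) z)}

/-- the set of the vertices that lie on some edge -/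
def covered {V : Type} (G : Set (Finset V)) : Set V := {v | ∃ e ∈ G, v ∈ e}

/-- some `m` edges span at most `m + 3` vertices -/
def HasDense {V : Type} (G : Set (Finset V)) (m : ℕ) : Prop :=
  ∃ S : Finset (Finset V), (∀ e ∈ S, e ∈ G) ∧ S.card = m ∧ {v | ∃ e ∈ S, v ∈ e}.ncard ≤ m + 3

/-- the coordinates of the three vertices -/
def cc (a : ℕ) : Fin 3 → Fin a → Fin (a + a + a) :=
  ![fun i => Fin.castAdd a (Fin.castAdd a i), fun i => Fin.castAdd a (Fin.natAdd a i),
    fun i => Fin.natAdd (a + a) i]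

theorem cc_surj (a : ℕ) (l : Fin (a + a + a)) : ∃ j i, cc a j i = l := by
  refine Fin.addCases (fun l => ?_) (fun l => ?_) l
  · refine Fin.addCases (fun l => ?_) (fun l => ?_) l
    · exact ⟨0, l, rfl⟩
    · exact ⟨1, l, rfl⟩
  · exact ⟨2, l, rfl⟩

theorem append_cc {a : ℕ} {k : Type} (p : Fin (a + a + a) → k) :
    Fin.append (Fin.append (p ∘ cc a 0) (p ∘ cc a 1)) (p ∘ cc a 2) = p := by
  funext l
  refine Fin.addCases (fun l => ?_) (fun l => ?_) l
  · rw [Fin.append_left]
    refine Fin.addCases (fun l => ?_) (fun l => ?_) l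
    · rw [Fin.append_left]; rfl
    · rw [Fin.append_right]; rfl
  · rw [Fin.append_right]; rfl

theorem cc_append {a : ℕ} {k : Type} (x y z : Fin a → k) :
    Fin.append (Fin.append x y) z ∘ cc a 0 = x ∧ Fin.append (Fin.append x y) z ∘ cc a 1 = y ∧
      Fin.append (Fin.append x y) z ∘ cc a 2 = z := by
  refine ⟨?_, ?_, ?_⟩
  · funext i
    show Fin.append (Fin.append x y) z (Fin.castAdd a (Fin.castAdd a i)) = x i
    rw [Fin.append_left, Fin.append_left]
  · funext i
    show Fin.append (Fin.append x y) z (Fin.castAdd a (Fin.natAdd a i)) = y i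
    rw [Fin.append_left, Fin.append_right]
  · funext i
    show Fin.append (Fin.append x y) z (Fin.natAdd (a + a) i) = z i
    rw [Fin.append_right]

/-- conjunction of a list -/
noncomputable def all {n : ℕ} : List (QF ℤ n) → QF ℤ n
  | [] => QF.eq 0
  | φ :: l => QF.and φ (all l)

theorem all_holds {n : ℕ} {k : Type} [Field k] (l : List (QF ℤ n)) (x : Fin n → k) :
    (all l).Holds x ↔ ∀ φ ∈ l, φ.Holds x := by
  induction l with
  | nil => simp [all, QF.Holds]
  | cons φ l ih =>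
    show φ.Holds x ∧ (all l).Holds x ↔ _
    rw [ih]
    simp

/-- the `j`-th and the `j'`-th vertex are distinct -/
noncomputable def dist (a : ℕ) (j j' : Fin 3) : QF ℤ (a + a + a) :=
  QF.neg (all ((List.finRange a).map fun i => QF.eq (X (cc a j i) - X (cc a j' i))))

theorem dist_holds {a : ℕ} (j j' : Fin 3) {k : Type} [Field k] (x : Fin (a + a + a) → k) :
    (dist a j j').Holds x ↔ x ∘ cc a j ≠ x ∘ cc a j' := by
  show ¬ (all _).Holds x ↔ _
  rw [all_holds, not_iff_not]
  simp only [List.mem_map, List.mem_finRange, true_and, forall_exists_index, forall_apply_eq_imp_iff]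
  constructor
  · intro h
    funext i
    have h1 : aeval x (X (cc a j i) - X (cc a j' i) : MvPolynomial (Fin (a + a + a)) ℤ) = 0 := h i
    rw [map_sub, aeval_X, aeval_X, sub_eq_zero] at h1
    exact h1
  · intro h i
    show aeval x (X (cc a j i) - X (cc a j' i) : MvPolynomial (Fin (a + a + a)) ℤ) = 0
    rw [map_sub, aeval_X, aeval_X, sub_eq_zero]
    exact congrFun h i

/-- the formula together with the distinctness of the vertices -/
noncomputable def full {a : ℕ} (E : QF ℤ (a + a + a)) : QF ℤ (a + a + a) :=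
  QF.and E (QF.and (dist a 0 1) (QF.and (dist a 0 2) (dist a 1 2)))

theorem full_holds {a : ℕ} (E : QF ℤ (a + a + a)) {k : Type} [Field k] (x : Fin (a + a + a) → k) :
    (full E).Holds x ↔ E.Holds x ∧ x ∘ cc a 0 ≠ x ∘ cc a 1 ∧ x ∘ cc a 0 ≠ x ∘ cc a 2 ∧
      x ∘ cc a 1 ≠ x ∘ cc a 2 := by
  show E.Holds x ∧ (dist a 0 1).Holds x ∧ (dist a 0 2).Holds x ∧ (dist a 1 2).Holds x ↔ _
  rw [dist_holds, dist_holds, dist_holds]

theorem full_ne {a : ℕ} (E : QF ℤ (a + a + a)) (k : Type) [Field k] (p : Fin (a + a + a) → k)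
    (h : (full E).Holds p) (j j' : Fin 3) (hj : j ≠ j') : p ∘ cc a j ≠ p ∘ cc a j' := by
  rw [full_holds] at h
  obtain ⟨-, h1, h2, h3⟩ := h
  fin_cases j <;> fin_cases j'
  · exact absurd rfl hj
  · exact h1
  · exact h2
  · exact h1.symm
  · exact absurd rfl hj
  · exact h3
  · exact h2.symm
  · exact h3.symm
  · exact absurd rfl hj

theorem coe_edge {a : ℕ} {k : Type} (p : Fin (a + a + a) → k) :
    (edge (cc a) p : Set (Fin a → k)) = {p ∘ cc a 0, p ∘ cc a 1, p ∘ cc a 2} := by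
  ext v
  simp only [edge, Finset.coe_image, Finset.coe_univ, Set.image_univ, Set.mem_range,
    Set.mem_insert_iff, Set.mem_singleton_iff]
  constructor
  · rintro ⟨j, rfl⟩
    fin_cases j
    · exact Or.inl rfl
    · exact Or.inr (Or.inl rfl)
    · exact Or.inr (Or.inr rfl)
  · rintro (rfl | rfl | rfl)
    · exact ⟨0, rfl⟩
    · exact ⟨1, rfl⟩
    · exact ⟨2, rfl⟩

theorem mem_triples {a : ℕ} (E : QF ℤ (a + a + a)) (k : Type) [Field k] (e : Finset (Fin a → k)) :
    e ∈ triples E k ↔ ∃ p : Fin (a + a + a) → k, (full E).Holds p ∧ e = edge (cc a) p := by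
  constructor
  · rintro ⟨x, y, z, hxy, hxz, hyz, he, hE⟩
    obtain ⟨h0, h1, h2⟩ := cc_append x y z
    refine ⟨Fin.append (Fin.append x y) z, ?_, ?_⟩
    · rw [full_holds, h0, h1, h2]
      exact ⟨hE, hxy, hxz, hyz⟩
    · apply Finset.coe_injective
      rw [coe_edge, h0, h1, h2, he]
  · rintro ⟨p, hp, rfl⟩
    rw [full_holds] at hp
    refine ⟨_, _, _, hp.2.1, hp.2.2.1, hp.2.2.2, coe_edge p, ?_⟩
    rw [append_cc]
    exact hp.1

theorem main (hL : LZ.S_LANDAU) (hCONF : S_CONF) (hGEN : S_GEN) (hPOINTS : S_POINTS)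
    (hUPPER : S_UPPER) (hLOWER : S_LOWER) (a : ℕ) (E : QF ℤ (a + a + a)) (m : ℕ) :
    ∃ C : ℕ, ∀ (k : Type) [Field k] [Finite k], C < ringChar k → ¬ HasDense (triples E k) m →
      ((triples E k).ncard : ℝ) ≤ C * ((covered (triples E k)).ncard : ℝ) ^ (2 - 1 / (a : ℝ)) := by
  rcases Nat.eq_zero_or_pos m with hm | hm
  · subst hm
    refine ⟨0, fun k _ _ _ h => absurd ⟨∅, ?_, ?_, ?_⟩ h⟩
    · simp
    · simp
    · simp
  obtain ⟨C, N, h⟩ := claim_all hL hCONF hGEN hPOINTS hUPPER hLOWER (cc_surj a) (full_ne E) hm ⊥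
  refine ⟨C + N, fun k _ _ hk hd => ?_⟩
  have h1 := h k (by omega) (by
    intro S hS hSm
    by_contra h2
    push Not at h2
    refine hd ⟨S, fun e he => (mem_triples E k e).2 (hS e he), hSm, ?_⟩
    have h3 : {v | ∃ e ∈ S, v ∈ e} = ((S.biUnion id : Finset (Fin a → k)) : Set (Fin a → k)) := by
      ext v
      simp
    rw [h3, Set.ncard_coe_finset]
    exact h2)
  have h2 : (triples E k).ncard ≤ (Pts (full E) ⊥ k).ncard := by
    have h3 : triples E k ⊆ (edge (cc a)) '' (Pts (full E) ⊥ k) := by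
      intro e he
      obtain ⟨p, hp, rfl⟩ := (mem_triples E k e).1 he
      refine ⟨p, ⟨hp, ?_⟩, rfl⟩
      intro f hf
      rw [Ideal.mem_bot] at hf
      rw [hf, map_zero]
    exact (Set.ncard_le_ncard h3 (Set.toFinite _)).trans (Set.ncard_image_le (Set.toFinite _))
  have h3 : Cov (cc a) (full E) k = covered (triples E k) := by
    ext v
    constructor
    · rintro ⟨p, j, hp, rfl⟩
      refine ⟨edge (cc a) p, (mem_triples E k _).2 ⟨p, hp, rfl⟩, ?_⟩
      exact Finset.mem_image_of_mem _ (Finset.mem_univ j)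
    · rintro ⟨e, he, hv⟩
      obtain ⟨p, hp, rfl⟩ := (mem_triples E k e).1 he
      obtain ⟨j, -, rfl⟩ := Finset.mem_image.1 hv
      exact ⟨p, j, hp, rfl⟩
  rw [h3] at h1
  have h4 : ((triples E k).ncard : ℝ) ≤ (Pts (full E) ⊥ k).ncard := by exact_mod_cast h2
  have h5 : (0 : ℝ) ≤ N * ((covered (triples E k)).ncard : ℝ) ^ (2 - 1 / (a : ℝ)) := by positivity
  push_cast
  rw [add_mul]
  linarith

end Pool.Agent.T2h48.AB
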