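import Pool.Agent.T2h48.DW.Defs

/-!
# Project AB: the Brown–Erdős–Sós conjecture for algebraic triple systems over finite fields

Statements of the tasks that need only Mathlib (POINTS, UPPER, LOWER are in `Stm1.lean`).

Let `A` be the coordinate ring of an irreducible component of the variety of the edges `(x, y, z)`, `K` its
field of fractions (the field of the generic edge). The liftings `K → K⟦T⟧` of the identity are 'edges near
the generic edge'; they form a Latin square (NET) by the lifting property (LIFT), and an infinite Latin square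
contains `m` cells in `m + 3` lines. By the theorem of Landau and Lang–Weil such a configuration gives
configurations over finite fields (POINTS).
-/

set_option autoImplicit false

namespace Pool.Agent.T2h48.AB

open Pool.Agent.T2h48.DW

/-- `φ` lifts the identity of `K` -/
def IsLift {K : Type} [Field K] (φ : K →+* PowerSeries K) : Prop :=
  ∀ a : K, PowerSeries.constantCoeff (φ a) = a

/-- **LIFT**. (`F = IntermediateField.adjoin ℚ (range u)`; `MvPolynomial ι ℚ → K⟦X⟧`, `u i ↦ h i`, extends to `F`
because an element with nonzero constant coefficient is a unit of `K⟦X⟧`. `K` is separable algebraic over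
`F`, so it is formally etale (`Algebra.FormallyEtale.of_isSeparable`), hence formally smooth; apply
`Algebra.FormallySmooth.exists_mkₐ_comp_eq_of_isAdicComplete` with the instance
`IsAdicComplete (.span {X}) (PowerSeries R)` of `Mathlib/RingTheory/AdicCompletion/Completeness.lean`.) -/
def S_LIFT : Prop :=
  ∀ (K : Type) [Field K] [CharZero K] (ι : Type) (u : ι → K), IsTranscendenceBasis ℚ u →
    ∀ h : ι → PowerSeries K, (∀ i, PowerSeries.constantCoeff (h i) = u i) →
      ∃ φ : K →+* PowerSeries K, IsLift φ ∧ ∀ i, φ (u i) = h i

/-- **LIFTU**: uniqueness of liftings on algebraic elements. (Let `m` be the minimal polynomial of `x` over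
`F = IntermediateField.adjoin ℚ (range u)`; `φ = ψ` on `F`; with `P = m.map φ`, `P = (T - φ x) G`, and
`G(ψ x)` has the constant coefficient `m'(x) ≠ 0`, so it is not zero, and `K⟦X⟧` is a domain. Or use that `K` is
formally unramified over `F`.) -/
def S_LIFTU : Prop :=
  ∀ (K : Type) [Field K] [CharZero K] (ι : Type) (u : ι → K) (x : K),
    IsAlgebraic (IntermediateField.adjoin ℚ (Set.range u)) x →
    ∀ φ ψ : K →+* PowerSeries K, IsLift φ → IsLift ψ → (∀ i, φ (u i) = ψ (u i)) → φ x = ψ x

/-- **NET**: an infinite Latin square contains `m` cells in at most `m + 3` lines. (Induction on `m`. If the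
number of lines is at most `m + 2` add a cell in a line of `T` and in a new second line. If it is `m + 3`,
add a cell not in `T` in two of the lines of `T`, of different kinds. If there is none, and there are `a, b, c`
lines of the three kinds, then `a b = a c = b c = m` and `a + b + c = m + 3`, so
`a = b = c` and `a ^ 2 + 3 = 3 a`, a contradiction.) -/
def S_NET : Prop :=
  ∀ (E V : Type) (r : Fin 3 → E → V),
    (∀ i j : Fin 3, i ≠ j → ∀ e f : E, ∃! g : E, r i g = r i e ∧ r j g = r j f) →
    (∀ i, (Set.range (r i)).Infinite) → ∀ m : ℕ, 1 ≤ m →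
      ∃ T : Finset E, T.card = m ∧ ∑ i, ((r i) '' (T : Set E)).ncard ≤ m + 3

/-- **CONF**: configurations near the generic edge `w 0, w 1, w 2 ∈ K ^ a` (from LIFT, LIFTU, NET).
Case A: `K` is algebraic over `ℚ(w i, w j)` for all `i ≠ j`. Then `D ≤ trdeg ℚ(w i) + trdeg ℚ(w j) ≤ D`, so the
union of transcendence bases of `ℚ(w i)` and `ℚ(w j)` (taken from the coordinates) is a transcendence basis
of `K`, and `trdeg ℚ(w i) = D / 2 ≥ 1`. Let `E` be the set of all liftings and
`r i φ = φ ∘ w i`; the hypotheses of NET follow from LIFT and LIFTU (the values of `φ` at the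
coordinates of `w i` are determined by the values at the basis).
Case B: `K` is not algebraic over `ℚ(w i, w j)` for some `i ≠ j`. A transcendence basis of `ℚ(w i, w j)` and at
least one element `b` more form a transcendence basis of `K`. Take the liftings with `b ↦ b + n X`,
`n = 1, …, m`, that fix the other elements of the basis. -/
def S_CONF : Prop :=
  ∀ (K : Type) [Field K] [CharZero K] (a D : ℕ) (w : Fin 3 → Fin a → K),
    Algebra.IsAlgebraic (IntermediateField.adjoin ℚ (Set.range fun p : Fin 3 × Fin a => w p.1 p.2)) K →
    Algebra.trdeg ℚ K = D → 1 ≤ D →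
    (∀ j, 2 * Algebra.trdeg ℚ (IntermediateField.adjoin ℚ (Set.range (w j))) ≤ D) →
    ∀ m : ℕ, 1 ≤ m → ∃ T : Finset (K →+* PowerSeries K), T.card = m ∧ (∀ φ ∈ T, IsLift φ) ∧
      ∑ j, ((fun (φ : K →+* PowerSeries K) (i : Fin a) => φ (w j i)) ''
        (T : Set (K →+* PowerSeries K))).ncard ≤ m + 3

/-- **GEN**: a formula is constant on a nonempty open subset of an irreducible set. (Induction on `φ`.) -/
def S_GEN : Prop :=
  ∀ (n : ℕ) (φ : QF ℤ n) (P : Ideal (MvPolynomial (Fin n) ℤ)), P.IsPrime → ∃ s, s ∉ P ∧
    ((∀ (k : Type) [Field k] (x : Fin n → k), (∀ f ∈ P, MvPolynomial.aeval x f = 0) →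
      MvPolynomial.aeval x s ≠ 0 → φ.Holds x) ∨
    (∀ (k : Type) [Field k] (x : Fin n → k), (∀ f ∈ P, MvPolynomial.aeval x f = 0) →
      MvPolynomial.aeval x s ≠ 0 → ¬ φ.Holds x))

end Pool.Agent.T2h48.AB
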