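import Pool.Agent.T2h48.LZ.Stm1
import Pool.Agent.T2h48.AB.Stm

/-!
# Project AB: statements of POINTS, UPPER, LOWER

They use the library theorem `Pool.Agent.T2h48.LZ.t_LANDAU : S_LANDAU` (take `S_LANDAU` as a hypothesis of
your theorem; `Landau A d L` is defined in `Pool/Agent/R410/LW/Step.lean`).
-/

set_option autoImplicit false

namespace Pool.Agent.T2h48.AB

open NumberField

/-- **POINTS** (from `LZ.S_LANDAU` for the ring `B`: it is a domain of characteristic zero; let `L` be its number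
field, `t` replaced by `t * s`. `#(𝓞 L →+* k) ≥ 1` is needed. The embedding `L → FractionRing B` gives
`𝓞 L → FractionRing (PowerSeries M)`; its image is integral over `ℤ`, so it is in `PowerSeries M` (integrally
closed); composed with the constant coefficient we get `j : 𝓞 L →+* M`, and
`Pool.Agent.T2h48.LZ.exists_hom j` (file `LZ/T_RING.lean`) gives the element `s : A`. If `#(𝓞 L →+* k) ≥ 1` and
`q = #k` is large then `#{χ // χ t ≠ 0} ≥ q ^ d - C q ^ d / √q > 0`; `q ≥ ringChar k`.) -/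
def S_POINTS : Prop :=
  ∀ (A M : Type) [CommRing A] [IsDomain A] [CharZero A] [Algebra.FiniteType ℤ A] [Field M]
    [Algebra A M] [IsFractionRing A M] (B : Subalgebra ℤ (PowerSeries M)), B.FG → ∀ t : B, t ≠ 0 →
    ∃ (s : A) (N : ℕ), s ≠ 0 ∧ ∀ (k : Type) [Field k] [Finite k], N < ringChar k →
      (∃ ψ : A →+* k, ψ s ≠ 0) → ∃ χ : B →+* k, χ t ≠ 0

/-- **UPPER** (from `LZ.S_LANDAU`, `LZ.S_DROP` and `W385.CP.hom_int`: `#(𝓞 L →+* k) ≤ [L : ℚ]`.) -/
def S_UPPER : Prop :=
  ∀ (A : Type) [CommRing A] [IsDomain A] [CharZero A] [Algebra.FiniteType ℤ A] (D : ℕ),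
    Algebra.trdeg ℚ (FractionRing A) = D → ∃ C N : ℕ, ∀ (k : Type) [Field k] [Finite k],
      N < ringChar k → Nat.card (A →+* k) ≤ C * Nat.card k ^ D

/-- **LOWER** (from `LZ.S_LANDAU`): the number of the values of a tuple `v` of functions. (`D = trdeg A`. Choose
among finitely many generators of `A` elements `g_1..g_r`, `r = D - d`, that together with a transcendence
basis of `ℚ(v)` form a transcendence basis of `M`; every generator `g` of `A` is a root of a polynomial
`≠ 0` with coefficients in `ℤ[v, g_1..g_r]` and leading coefficient `c_g ≠ 0`, so if `ψ (∏ c_g) ≠ 0` then `ψ` is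
determined by `ψ ∘ v` and the `ψ g_i` up to `C` possibilities: `#{ψ // ψ t ≠ 0} ≤ C q ^ r #{ψ ∘ v}` for
`t = s₀ s_L ∏ c_g`. By LANDAU `#{ψ // ψ t ≠ 0} ≥ q ^ D / 2` if `#(𝓞 L →+* k) ≥ 1`, which holds if `ψ s' ≠ 0` for
some `ψ`, with `s'` from `LZ.exists_hom`, file `LZ/T_RING.lean`; take `s = s'`.) -/
def S_LOWER : Prop :=
  ∀ (A M : Type) [CommRing A] [IsDomain A] [CharZero A] [Algebra.FiniteType ℤ A] [Field M]
    [CharZero M] [Algebra A M] [IsFractionRing A M] (a d : ℕ) (v : Fin a → A),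
    Algebra.trdeg ℚ (IntermediateField.adjoin ℚ (Set.range fun i => algebraMap A M (v i))) = d →
    ∀ s₀ : A, s₀ ≠ 0 → ∃ (C N : ℕ) (s : A), s ≠ 0 ∧ ∀ (k : Type) [Field k] [Finite k],
      N < ringChar k → (∃ ψ : A →+* k, ψ s ≠ 0) →
        Nat.card k ^ d ≤ C *
          (Set.range fun (ψ : {ψ : A →+* k // ψ s₀ ≠ 0}) (i : Fin a) => ψ.1 (v i)).ncard

end Pool.Agent.T2h48.AB
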